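import Mathlib
import Pool.Agent.CVD.Stmts

set_option autoImplicit false

/-!
# CVE: covering lemma with high moments (statements), stronger form of CVD for MP_525bc7_nt

Same method as in `Pool/Agent/CVD` (read `Pool/Agent/CVD/Stmts.lean` first), with the `k`-th moment instead of the second
one.  Allowed multiplicities: `K D^(1-ε)` and `l^(1-ε) exp (K log D / log l)`, `l` the largest prime factor of `D`.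

Convention: module XXX is the file `Pool/Agent/CVE/XXX.lean` with `theorem thm_XXX (hypotheses as listed) : St_XXX`,
namespace `Pool.Agent.CVE`, imports `Pool.Agent.CVE.Stmts` (and Mathlib, and the module of `CVD` that is adapted, if wanted).
-/

namespace Pool.Agent.CVE

open Finset Pool.Agent.CVD

/-- allowed multiplicities -/
def MultK (ε K : ℝ) (J : Finset ℕ) (d : ℕ → ℕ) : Prop :=
  (∀ D : ℕ, ((J.filter (fun i => d i = D)).card : ℝ) ≤ K * (D : ℝ) ^ (1 - ε)) ∧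
  ∀ D l : ℕ, l.Prime → 11 ≤ l → l ∣ D → (∀ p : ℕ, p.Prime → p ∣ D → p ≤ l) →
    ((J.filter (fun i => d i = D)).card : ℝ) ≤
      (l : ℝ) ^ (1 - ε) * Real.exp (K * (Real.log D / Real.log l))

/-- [StepK] one step of the distortion method, from `Q` to `Q l^e`; as `CVD.St_Step`, with the `k`-th power.

PROOF.  As in `Pool/Agent/CVD/Step.lean` (only the last inequality changes): where `α > 1/2` one has `α ≤ 1 ≤ (2 α)^k`. -/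
def St_StepK : Prop := ∀ k : ℕ, 1 ≤ k → ∀ (R : Finset ℕ) (ρ : ℕ → ℕ) (l Q e : ℕ) (w : ℕ → ℝ) (B : ℕ → Prop)
    [DecidablePred B],
  l.Prime → 1 ≤ Q → Q.Coprime l → 1 ≤ e → (∀ q ∈ R, q < l → q ∣ Q) → Inv R ρ l Q w →
  ∃ w' : ℕ → ℝ, Inv R ρ (l + 1) (Q * l ^ e) w' ∧
    (∀ (S : ℕ → Prop) [DecidablePred S], ∑ x ∈ (range (Q * l ^ e)).filter (fun x => S (x % Q)), w' x =
      ∑ x ∈ (range Q).filter S, w x) ∧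
    ∑ x ∈ (range (Q * l ^ e)).filter B, w' x ≤
      2 ^ k * ∑ x ∈ range Q, w x * ((((range (l ^ e)).filter (fun k => B (x + Q * k))).card : ℝ) /
        ((l : ℝ) ^ (e - 1) * ((l : ℝ) - 1))) ^ k

/-- bound for the moments, by recursion; `gk l J d k 1` bounds the `k`-th moment -/
noncomputable def gk (l : ℕ) (J : Finset ℕ) (d : ℕ → ℕ) : ℕ → ℕ → ℝ
  | 0, D => hh D
  | j + 1, D => ∑ i ∈ J, gk l J d j (Nat.lcm D (co l (d i))) / ((pe l (d i)).totient : ℝ)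

/-- [MomK] the `k`-th moment for a union of residue classes.

PROOF.  As in `Pool/Agent/CVD/Mom.lean`: with `q i = co l (d i)`, `φ i = φ (pe l (d i)) > 0` and
`I i x = if x % q i = c i % q i then 1 else 0` the quotient is at most `s x = ∑_{i ∈ J} I i x / φ i` (`hpt` there), and it is
`≥ 0`.  Claim, by induction on `k`: for all `D ∣ Q` and all `x₀`,
`∑_{x < Q, x % D = x₀ % D} w x * (s x)^k ≤ gk l J d k D`.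
`k = 0`: `Inv.bound`.  `k + 1`: the sum is `∑_{i ∈ J} (1/φ i) ∑_{x : x % D = x₀ % D, x % q i = c i % q i} w x (s x)^k`; the inner
set is empty or contained in (equal to) a class modulo `lcm D (q i)` (which divides `Q`), terms `≥ 0`; `gk ≥ 0`.
Finally `D = 1`. -/
def St_MomK : Prop := ∀ (R : Finset ℕ) (ρ : ℕ → ℕ) (t l Q e : ℕ) (w : ℕ → ℝ) (J : Finset ℕ) (d c : ℕ → ℕ),
  l.Prime → 1 ≤ Q → Q.Coprime l → 1 ≤ e → Inv R ρ t Q w → (∀ i ∈ J, d i ∣ Q * l ^ e ∧ ¬ d i ∣ Q) →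
  ∀ k : ℕ, ∑ x ∈ range Q, w x * ((((range (l ^ e)).filter (fun k => ∃ i ∈ J, (x + Q * k) % d i = c i)).card : ℝ) /
    ((l : ℝ) ^ (e - 1) * ((l : ℝ) - 1))) ^ k ≤ gk l J d k 1

/-- [EK] the Euler product.  HYPS: `(h0 : St_Eul)` (that is `CVD.St_Eul`).

PROOF.  As in `Pool/Agent/CVD/G3.lean` (case `k = 2`): `ε = c/log l`, `f L = τ(L)^k L^(k ε) hh L` is multiplicative; for `a ≥ 1`,
`f (p^a) ≤ 4 (a+1)^k r^a`, `r = p^(k ε - 1)`; for `l ≥ y₀(c,k)`: `k ε ≤ 1/4`, so `r ≤ 3/5`, and `r ≤ e^(k c)/p`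
(`p < l`).  `∑_{a=1}^{v} (a+1)^k r^a ≤ A_k r` with `A_k = ∑_{a ≥ 1} (a+1)^k (3/5)^(a-1)` (summable:
`summable_pow_mul_geometric_of_norm_lt_one`, or any constant `A_k` obtained from it).
`∏_{p ∣ Q} (1 + 4 A_k e^(k c)/p) ≤ exp (C₁ (log log l + 8)) ≤ C l^(1/4)` as there (`recip`). -/
def St_EK : Prop := ∀ (k : ℕ) (c : ℝ), 0 ≤ c → ∃ (C : ℝ) (y₀ : ℕ), 0 ≤ C ∧ ∀ l Q : ℕ, y₀ ≤ l → 1 ≤ Q →
  (∀ p : ℕ, p.Prime → p ∣ Q → p < l) →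
  ∑ L ∈ Q.divisors, (L.divisors.card : ℝ) ^ k * (L : ℝ) ^ (k * (c / Real.log l)) * hh L ≤
    C * (l : ℝ) ^ (1 / 4 : ℝ)

/-- [OneK] the sum over one variable.

PROOF.  As `G_one` in `Pool/Agent/CVD/G.lean`.  `D = d i` is `q l^a` with `q = co l D ∣ Q`, `1 ≤ a ≤ e`; its largest prime factor is
`l`, so there are at most `l^(1-ε) exp (K log D/log l) = l^(1-ε) q^(K/log l) e^(K a)` indices with this `D`;
`φ(l^a) ≥ l^a/2` and `∑_{a ≥ 1} 2 (e^K/l)^a ≤ 4 e^K/l` for `l ≥ 2 e^K`. -/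
def St_OneK : Prop := ∀ (ε K : ℝ) (l Q e : ℕ) (J : Finset ℕ) (d : ℕ → ℕ) (H : ℕ → ℝ), 0 ≤ K → l.Prime → 11 ≤ l →
  2 * Real.exp K ≤ l → 1 ≤ Q → (∀ p : ℕ, p.Prime → p ∣ Q → p < l) → (∀ i ∈ J, d i ∣ Q * l ^ e ∧ ¬ d i ∣ Q) →
  MultK ε K J d → (∀ n, 0 ≤ H n) →
  ∑ i ∈ J, H (co l (d i)) / ((pe l (d i)).totient : ℝ) ≤
    (4 * Real.exp K * (l : ℝ) ^ (-ε)) * ∑ q ∈ Q.divisors, (q : ℝ) ^ (K / Real.log l) * H q

/-- [GK] the moments are summable over the primes `l`.  HYPS: `(h1 : St_OneK) (h2 : St_EK)`.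

PROOF.  `κ = K/log l`, `E = 4 e^K l^(-ε)`, `H j D = ∑_{L ∈ Q.divisors, D ∣ L} hh L * τ(L)^j * L^(j κ)`.
Claim, by induction on `j`: `gk l J d j D ≤ E^j * H j D` for every `D ∣ Q`.  `j = 0`: the term `L = D`.
`j + 1`: `gk (j+1) D = ∑_i gk j (lcm D (q i))/φ i ≤ E^j ∑_i H j (lcm D (q i))/φ i ≤ E^(j+1) ∑_{q ∣ Q} q^κ H j (lcm D q)` by `St_OneK`
with the function `n ↦ H j (lcm D n)` (for `i ∈ J`, `q i = co l (d i) ∣ Q`), and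
`∑_{q ∣ Q} q^κ ∑_{L ∣ Q, lcm D q ∣ L} .. = ∑_{L ∣ Q, D ∣ L} hh L τ(L)^j L^(j κ) ∑_{q ∣ L} q^κ ≤ H (j+1) D`
(`q^κ ≤ L^κ` for `q ∣ L`).
So `gk k 1 ≤ E^k ∑_{L ∣ Q} .. ≤ (4 e^K)^k l^(-k ε) C l^(1/4) ≤ (4 e^K)^k C / l^(3/2)` for `k ε ≥ 2`.  Take
`y₀ = max` of `11`, `⌈2 e^K⌉` and the one of `St_EK` (with `c = K`). -/
def St_GK : Prop := ∀ (ε K : ℝ) (k : ℕ), 0 < ε → 0 ≤ K → 2 ≤ k * ε → ∃ (C : ℝ) (y₀ : ℕ), 0 ≤ C ∧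
  ∀ (l Q e : ℕ) (J : Finset ℕ) (d : ℕ → ℕ), l.Prime → y₀ ≤ l → 1 ≤ Q → (∀ p : ℕ, p.Prime → p ∣ Q → p < l) →
  (∀ i ∈ J, d i ∣ Q * l ^ e ∧ ¬ d i ∣ Q) → MultK ε K J d → gk l J d k 1 ≤ C / (l : ℝ) ^ (3 / 2 : ℝ)

/-- [TK] the first stage.  HYPS: `(h0 : St_Eul)` (that is `CVD.St_Eul`).

PROOF.  As in `Pool/Agent/CVD/T.lean`.  Only the first half of `MultK` is used.  Group by `D = d i`: the sum is at most
`∑_{D ∣ Q, D ≥ Z₀} K D^(1-ε) hh D ≤ K Z₀^(-ε/2) ∑_{D ∣ Q} f D`, `f D = D^(1-ε/2) hh D` multiplicative,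
`f (p^a) ≤ p^(a (1-ε/2)) * 4/p^a = 4 (p^(-ε/2))^a ≤ 4 ρ^a` with `ρ = 2^(-ε/2) < 1`, `∑_{a ≥ 1} 4 ρ^a ≤ 4 ρ/(1-ρ) =: b`; by
`St_Eul` `∑_{D ∣ Q} f D ≤ (1+b)^y` (the primes of `Q` are `< y`).  Choose `Z₀` with `4 K (1+b)^y ≤ Z₀^(ε/2)`. -/
def St_TK : Prop := ∀ (ε K : ℝ) (y : ℕ), 0 < ε → ε < 1 → 0 ≤ K → ∃ Z₀ : ℕ, 1 ≤ Z₀ ∧
  ∀ (Q : ℕ) (J : Finset ℕ) (d : ℕ → ℕ),
  1 ≤ Q → (∀ p : ℕ, p.Prime → p ∣ Q → p < y) → (∀ i ∈ J, Z₀ ≤ d i ∧ d i ∣ Q) → MultK ε K J d →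
  ∑ i ∈ J, hh (d i) ≤ 1 / 4

/-- [CovK] THE COVERING LEMMA.  HYPS: `(h0 : St_StepK) (h1 : St_MomK) (h2 : St_GK) (h3 : St_TK)`.

PROOF.  As in `Pool/Agent/CVD/Cov.lean`, with `k = ⌈2/ε⌉`. -/
def St_CovK : Prop := ∀ ε K : ℝ, 0 < ε → ε < 1 → 0 ≤ K → ∃ Z₀ : ℕ, 1 ≤ Z₀ ∧
  ∀ (R : Finset ℕ) (ρ : ℕ → ℕ), (∀ l ∈ R, l.Prime) →
  ∀ (I : Finset ℕ) (d c : ℕ → ℕ), (∀ i ∈ I, Z₀ ≤ d i) → MultK ε K I d →
  ∃ j : ℕ, (∀ l ∈ R, j % l ≠ ρ l) ∧ ∀ i ∈ I, j % d i ≠ c i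

/-- [UK] THE RESULT.  HYPS: `(h0 : St_CovK)`.

PROOF.  As in `Pool/Agent/CVD/U.lean`. -/
def St_UK : Prop := ∀ (K : ℕ) (ε : ℝ), 0 < ε → ∃ a : ℕ → ℕ, (∀ n, a (n + 2) = a (n + 1) + a n) ∧
  (∀ k, 1 < a k ∧ ¬ (a k).Prime) ∧
  ∀ n : ℕ, 1 < n → (∀ d q : ℕ, q.Prime → q ∣ d → (∀ p : ℕ, p.Prime → p ∣ d → p ≤ q) →
    ((n.primeFactors.filter (fun p => rank p = d)).card : ℝ) ≤ K * (d : ℝ) ^ (1 - ε) ∧
    ((n.primeFactors.filter (fun p => rank p = d)).card : ℝ) ≤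
      (q : ℝ) ^ (1 - ε) * Real.exp (K * (Real.log d / Real.log q))) → ∃ k, Nat.gcd n (a k) = 1

end Pool.Agent.CVE
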