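import Mathlib
import Pool.Agent.CVE.Stmts
import Pool.Agent.CVD.Cov

set_option autoImplicit false

/-!
# CVE/CovK: the covering lemma with high moments (adapted from `CVD/Cov.lean`, helper24)
-/

namespace Pool.Agent.CVE

open Finset Pool.Agent.CVD

theorem MultK_mono (ε K : ℝ) (I J : Finset ℕ) (d : ℕ → ℕ) (hJ : J ⊆ I) (h : MultK ε K I d) :
    MultK ε K J d := by
  have hc : ∀ D : ℕ, ((J.filter (fun i => d i = D)).card : ℝ) ≤
      ((I.filter (fun i => d i = D)).card : ℝ) := fun D => by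
    exact_mod_cast Finset.card_le_card (Finset.filter_subset_filter _ hJ)
  exact ⟨fun D => (hc D).trans (h.1 D), fun D l h1 h2 h3 h4 => (hc D).trans (h.2 D l h1 h2 h3 h4)⟩

theorem tail_smallK (A C : ℝ) (y₀ : ℕ) : ∃ y : ℕ, y₀ ≤ y ∧ 2 ≤ y ∧
    ∀ t : ℕ, ∑ l ∈ Ico y t, A * (C / (l : ℝ) ^ (3 / 2 : ℝ)) ≤ 1 / 4 := by
  have h := tail_small (A * C / 2) y₀
  obtain ⟨y, h1, h2, h3⟩ := h
  refine ⟨y, h1, h2, fun t => (le_of_eq ?_).trans (h3 t)⟩
  refine Finset.sum_congr rfl fun l _ => ?_
  ring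

open Classical in
theorem thm_CovK (h0 : St_StepK) (h1 : St_MomK) (h2 : St_GK) (h3 : St_TK) : St_CovK := by
  intro ε K hε hε1 hK
  obtain ⟨k, hk⟩ : ∃ k : ℕ, k = ⌈2 / ε⌉₊ := ⟨_, rfl⟩
  have hkε : 2 ≤ k * ε := by
    have h := Nat.le_ceil (2 / ε)
    rw [← hk] at h
    rwa [div_le_iff₀ hε] at h
  have hk1 : 1 ≤ k := by
    rcases Nat.eq_zero_or_pos k with h | h
    · rw [h] at hkε
      norm_num at hkε
    · exact h
  obtain ⟨C, y₀, hC, hG⟩ := h2 ε K k hε hK hkε
  obtain ⟨y, hy0, hy2, htail⟩ := tail_smallK (2 ^ k) C y₀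
  obtain ⟨Z₀, hZ1, hT⟩ := h3 ε K y hε hε1 hK
  refine ⟨Z₀, hZ1, ?_⟩
  intro R ρ hR I d c hZ hM
  set N : ℕ := (∏ i ∈ I, d i) * ∏ l ∈ R, l with hNdef
  have hN0 : N ≠ 0 := by
    rw [hNdef]
    refine mul_ne_zero (Finset.prod_ne_zero_iff.mpr fun i hi => ?_) (Finset.prod_ne_zero_iff.mpr fun l hl => ?_)
    · have := hZ i hi
      omega
    · exact (hR l hl).pos.ne'
  have hdN : ∀ i ∈ I, d i ∣ N := fun i hi => Dvd.dvd.mul_right (Finset.dvd_prod_of_mem d hi) _
  have hRN : ∀ l ∈ R, l ∣ N := fun l hl => Dvd.dvd.mul_left (Finset.dvd_prod_of_mem (fun l => l) hl) _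
  have hRQ : ∀ t : ℕ, ∀ q ∈ R, q < t → q ∣ QQ N t := by
    intro t q hq hqt
    refine QQ_dvd N q t hN0 (hRN q hq) ?_
    intro p hp hpq
    rw [(Nat.prime_dvd_prime_iff_eq hp (hR q hq)).mp hpq]
    exact hqt
  -- Claim A
  have hA : ∀ t : ℕ, ∃ w : ℕ → ℝ, Inv R ρ t (QQ N t) w := by
    intro t
    induction t with
    | zero => exact ⟨fun _ => 1, by rw [QQ_zero]; exact inv_zero R ρ⟩
    | succ t ih =>
      obtain ⟨w, hw⟩ := ih
      by_cases ht : t.Prime
      · by_cases he : N.factorization t = 0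
        · refine ⟨w, ?_⟩
          rw [QQ_succ_prime N t ht, he, pow_zero, mul_one]
          refine inv_skip R ρ t _ w hw ?_
          intro htR
          have := (ht.dvd_iff_one_le_factorization hN0).mp (hRN t htR)
          omega
        · obtain ⟨w', hw', -, -⟩ := h0 k hk1 R ρ t (QQ N t) (N.factorization t) w (fun _ => False) ht (QQ_pos N t)
            (QQ_coprime N t ht) (by omega) (fun q hq hqt => hRQ t q hq hqt) hw
          exact ⟨w', by rw [QQ_succ_prime N t ht]; exact hw'⟩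
      · refine ⟨w, ?_⟩
        rw [QQ_succ_nprime N t ht]
        exact inv_skip R ρ t _ w hw (fun htR => ht (hR t htR))
  -- Claim B
  have hB : ∀ t : ℕ, y ≤ t → ∃ w : ℕ → ℝ, Inv R ρ t (QQ N t) w ∧
      ∑ x ∈ (range (QQ N t)).filter (fun x => ∃ i ∈ I, d i ∣ QQ N t ∧ x % d i = c i), w x ≤
        1 / 4 + ∑ l ∈ Ico y t, 2 ^ k * (C / (l : ℝ) ^ (3 / 2 : ℝ)) := by
    intro t hyt
    induction t, hyt using Nat.le_induction with
    | base =>
      obtain ⟨w, hw⟩ := hA y
      refine ⟨w, hw, ?_⟩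
      rw [Finset.Ico_self, Finset.sum_empty, add_zero]
      set J := I.filter (fun i => d i ∣ QQ N y) with hJ
      have hsub : (range (QQ N y)).filter (fun x => ∃ i ∈ I, d i ∣ QQ N y ∧ x % d i = c i) ⊆
          J.biUnion (fun i => (range (QQ N y)).filter (fun x => x % d i = c i % d i)) := by
        intro x hx
        rw [Finset.mem_filter] at hx
        obtain ⟨hx1, i, hi, hdi, hxi⟩ := hx
        rw [Finset.mem_biUnion]
        refine ⟨i, by rw [hJ, Finset.mem_filter]; exact ⟨hi, hdi⟩, ?_⟩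
        rw [Finset.mem_filter]
        refine ⟨hx1, ?_⟩
        rw [← hxi, Nat.mod_mod]
      calc ∑ x ∈ (range (QQ N y)).filter (fun x => ∃ i ∈ I, d i ∣ QQ N y ∧ x % d i = c i), w x
          ≤ ∑ x ∈ J.biUnion (fun i => (range (QQ N y)).filter (fun x => x % d i = c i % d i)), w x :=
            Finset.sum_le_sum_of_subset_of_nonneg hsub (fun x _ _ => hw.nonneg x)
        _ ≤ ∑ i ∈ J, ∑ x ∈ (range (QQ N y)).filter (fun x => x % d i = c i % d i), w x :=
            sum_biUnion_le' _ _ w (fun x => hw.nonneg x)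
        _ ≤ ∑ i ∈ J, hh (d i) := by
            refine Finset.sum_le_sum ?_
            intro i hi
            rw [hJ, Finset.mem_filter] at hi
            exact hw.bound (d i) (c i) hi.2
        _ ≤ 1 / 4 := by
            refine hT (QQ N y) J d (QQ_pos N y) (fun p hp hpd => QQ_lt N y p hp hpd) ?_
              (MultK_mono ε K I J d (Finset.filter_subset _ _) hM)
            intro i hi
            rw [hJ, Finset.mem_filter] at hi
            exact ⟨hZ i hi.1, hi.2⟩
    | succ t hyt ih =>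
      obtain ⟨w, hw, hkill⟩ := ih
      have hterm : 0 ≤ 2 ^ k * (C / (t : ℝ) ^ (3 / 2 : ℝ)) := by positivity
      rw [Finset.sum_Ico_succ_top hyt]
      by_cases ht : t.Prime ∧ N.factorization t ≠ 0
      · obtain ⟨ht, he⟩ := ht
        set e := N.factorization t with hedef
        set J := I.filter (fun i => d i ∣ QQ N t * t ^ e ∧ ¬ d i ∣ QQ N t) with hJ
        have hJp : ∀ i ∈ J, d i ∣ QQ N t * t ^ e ∧ ¬ d i ∣ QQ N t := by
          intro i hi
          rw [hJ, Finset.mem_filter] at hi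
          exact hi.2
        obtain ⟨w', hw', hmarg, hBs⟩ := h0 k hk1 R ρ t (QQ N t) e w (fun x => ∃ i ∈ J, x % d i = c i) ht
          (QQ_pos N t) (QQ_coprime N t ht) (by omega) (fun q hq hqt => hRQ t q hq hqt) hw
        have hmom := h1 R ρ t t (QQ N t) e w J d c ht (QQ_pos N t) (QQ_coprime N t ht) (by omega) hw hJp k
        have hg := hG t (QQ N t) e J d ht (le_trans hy0 hyt) (QQ_pos N t)
          (fun p hp hpd => QQ_lt N t p hp hpd) hJp (MultK_mono ε K I J d (Finset.filter_subset _ _) hM)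
        have hm := hmarg (fun x => ∃ i ∈ I, d i ∣ QQ N t ∧ x % d i = c i)
        refine ⟨w', by rw [QQ_succ_prime N t ht]; exact hw', ?_⟩
        rw [QQ_succ_prime N t ht, ← hedef]
        have hsub : (range (QQ N t * t ^ e)).filter (fun x => ∃ i ∈ I, d i ∣ QQ N t * t ^ e ∧ x % d i = c i) ⊆
            (range (QQ N t * t ^ e)).filter (fun x => ∃ i ∈ I, d i ∣ QQ N t ∧ (x % QQ N t) % d i = c i) ∪
            (range (QQ N t * t ^ e)).filter (fun x => ∃ i ∈ J, x % d i = c i) := by
          intro x hx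
          rw [Finset.mem_filter] at hx
          obtain ⟨hx1, i, hi, hdi, hxi⟩ := hx
          rw [Finset.mem_union, Finset.mem_filter, Finset.mem_filter]
          by_cases hdt : d i ∣ QQ N t
          · left
            refine ⟨hx1, i, hi, hdt, ?_⟩
            rw [Nat.mod_mod_of_dvd _ hdt]
            exact hxi
          · right
            refine ⟨hx1, i, ?_, hxi⟩
            rw [hJ, Finset.mem_filter]
            exact ⟨hi, hdi, hdt⟩
        have hle : ∑ x ∈ (range (QQ N t * t ^ e)).filter (fun x => ∃ i ∈ I, d i ∣ QQ N t * t ^ e ∧ x % d i = c i), w' x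
            ≤ ∑ x ∈ (range (QQ N t * t ^ e)).filter (fun x => ∃ i ∈ I, d i ∣ QQ N t ∧ (x % QQ N t) % d i = c i), w' x
              + ∑ x ∈ (range (QQ N t * t ^ e)).filter (fun x => ∃ i ∈ J, x % d i = c i), w' x := by
          refine le_trans (Finset.sum_le_sum_of_subset_of_nonneg hsub (fun x _ _ => hw'.nonneg x)) ?_
          rw [← Finset.sum_union_inter]
          have : 0 ≤ ∑ x ∈ (range (QQ N t * t ^ e)).filter (fun x => ∃ i ∈ I, d i ∣ QQ N t ∧ (x % QQ N t) % d i = c i) ∩
              (range (QQ N t * t ^ e)).filter (fun x => ∃ i ∈ J, x % d i = c i), w' x :=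
            Finset.sum_nonneg (fun x _ => hw'.nonneg x)
          linarith
        have e1 : ∑ x ∈ (range (QQ N t * t ^ e)).filter (fun x => ∃ i ∈ I, d i ∣ QQ N t ∧ (x % QQ N t) % d i = c i), w' x
            ≤ 1 / 4 + ∑ l ∈ Ico y t, 2 ^ k * (C / (l : ℝ) ^ (3 / 2 : ℝ)) := by
          refine le_trans (le_of_eq ?_) hkill
          convert hm using 2
        have e2 : ∑ x ∈ (range (QQ N t * t ^ e)).filter (fun x => ∃ i ∈ J, x % d i = c i), w' x
            ≤ 2 ^ k * (C / (t : ℝ) ^ (3 / 2 : ℝ)) := by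
          have e3 : 2 ^ k * ∑ x ∈ range (QQ N t), w x * ((((range (t ^ e)).filter
              (fun k => ∃ i ∈ J, (x + QQ N t * k) % d i = c i)).card : ℝ) /
              ((t : ℝ) ^ (e - 1) * ((t : ℝ) - 1))) ^ k ≤ 2 ^ k * (C / (t : ℝ) ^ (3 / 2 : ℝ)) := by
            refine mul_le_mul_of_nonneg_left ?_ (by positivity)
            refine le_trans ?_ hg
            convert hmom using 2
          refine le_trans ?_ e3
          convert hBs using 2
        linarith
      · -- nothing happens at `t`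
        have hQ : QQ N (t + 1) = QQ N t := by
          by_cases hp : t.Prime
          · have he : N.factorization t = 0 := by
              by_contra hne
              exact ht ⟨hp, hne⟩
            rw [QQ_succ_prime N t hp, he, pow_zero, mul_one]
          · exact QQ_succ_nprime N t hp
        have htR : t ∉ R := by
          intro htR
          have hp := hR t htR
          have := (hp.dvd_iff_one_le_factorization hN0).mp (hRN t htR)
          exact ht ⟨hp, by omega⟩
        refine ⟨w, by rw [hQ]; exact inv_skip R ρ t _ w hw htR, ?_⟩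
        rw [hQ]
        linarith
  -- the end
  set T := max (N + 1) y with hTdef
  obtain ⟨w, hw, hkill⟩ := hB T (le_max_right _ _)
  have hlt : ∀ D : ℕ, D ∣ N → D ∣ QQ N T := by
    intro D hD
    refine QQ_dvd N D T hN0 hD ?_
    intro p hp hpD
    have : p ≤ N := Nat.le_of_dvd (Nat.pos_of_ne_zero hN0) (hpD.trans hD)
    have : N + 1 ≤ T := le_max_left _ _
    omega
  have hk2 : ∑ x ∈ (range (QQ N T)).filter (fun x => ∃ i ∈ I, d i ∣ QQ N T ∧ x % d i = c i), w x ≤ 1 / 2 := by
    have := htail T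
    linarith
  have hex : ∃ x ∈ (range (QQ N T)).filter (fun x => ¬ ∃ i ∈ I, d i ∣ QQ N T ∧ x % d i = c i), w x ≠ 0 := by
    by_contra hcon
    push Not at hcon
    have hz : ∑ x ∈ (range (QQ N T)).filter (fun x => ¬ ∃ i ∈ I, d i ∣ QQ N T ∧ x % d i = c i), w x = 0 :=
      Finset.sum_eq_zero (fun x hx => hcon x (by simpa using hx))
    have := Finset.sum_filter_add_sum_filter_not (range (QQ N T))
      (fun x => ∃ i ∈ I, d i ∣ QQ N T ∧ x % d i = c i) w
    rw [hz, hw.total, add_zero] at this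
    linarith
  obtain ⟨x, hx, hwx⟩ := hex
  rw [Finset.mem_filter] at hx
  refine ⟨x, ?_, ?_⟩
  · intro l hl
    refine hw.supp x hx.1 hwx l hl ?_
    have : l ≤ N := Nat.le_of_dvd (Nat.pos_of_ne_zero hN0) (hRN l hl)
    have : N + 1 ≤ T := le_max_left _ _
    omega
  · intro i hi hxi
    exact hx.2 ⟨i, hi, hlt _ (hdN i hi), hxi⟩

end Pool.Agent.CVE
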