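import Mathlib
import Pool.Agent.CVE.Stmts
import Pool.Agent.CVD.Step

/-!
# CVE: one step of the distortion method, basic form (adapted from `CVD/Step.lean`, helper98)
-/

set_option autoImplicit false

namespace Pool.Agent.CVE

open Finset Pool.Agent.CVD Pool.Agent.CVD.Stepx

/-- one step of the distortion method: mass of `B` at most the mass of the points with more than half of the fibre in `B` -/
def St_StepI : Prop := ∀ (R : Finset ℕ) (ρ : ℕ → ℕ) (l Q e : ℕ) (w : ℕ → ℝ) (B : ℕ → Prop)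
    [DecidablePred B],
  l.Prime → 1 ≤ Q → Q.Coprime l → 1 ≤ e → (∀ q ∈ R, q < l → q ∣ Q) → Inv R ρ l Q w →
  ∃ w' : ℕ → ℝ, Inv R ρ (l + 1) (Q * l ^ e) w' ∧
    (∀ (S : ℕ → Prop) [DecidablePred S], ∑ x ∈ (range (Q * l ^ e)).filter (fun x => S (x % Q)), w' x =
      ∑ x ∈ (range Q).filter S, w x) ∧
    ∑ x ∈ (range (Q * l ^ e)).filter B, w' x ≤
      ∑ x ∈ range Q, w x * (if 1 / 2 < (((range (l ^ e)).filter (fun k => B (x + Q * k))).card : ℝ) /
        ((l : ℝ) ^ (e - 1) * ((l : ℝ) - 1)) then 1 else 0)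

/-- The distortion in one fibre. -/
theorem fibreI (N : ℕ) (F : Finset ℕ) (hF : F ⊆ range N) (b : ℕ → Prop) [DecidablePred b] (N0 : ℝ)
    (h0 : 0 < N0) (h1 : N0 ≤ (F.card : ℝ)) :
    ∃ g : ℕ → ℝ, (∀ k, 0 ≤ g k) ∧ (∀ k, g k ≤ 2) ∧ (∀ k, g k ≠ 0 → k ∈ F) ∧
      ∑ k ∈ range N, g k = (F.card : ℝ) ∧
      ∑ k ∈ (range N).filter b, g k ≤
        (F.card : ℝ) * (if 1 / 2 < ((((range N).filter b).card : ℝ) / N0) then 1 else 0) := by
  classical
  have hf : (0 : ℝ) < F.card := h0.trans_le h1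
  set m : ℝ := ((F.filter b).card : ℝ) with hm
  have hm0 : 0 ≤ m := Nat.cast_nonneg _
  have hmn : m + ((F.filter (fun k => ¬ b k)).card : ℝ) = (F.card : ℝ) := by
    rw [hm]; exact_mod_cast Finset.card_filter_add_card_filter_not (s := F) b
  have hmb : m ≤ (((range N).filter b).card : ℝ) := by
    rw [hm]; exact_mod_cast Finset.card_le_card (Finset.filter_subset_filter b hF)
  by_cases ha : 1 / 2 < m / (F.card : ℝ)
  · refine ⟨fun k => if k ∈ F then 1 else 0, fun k => ?_, fun k => ?_, fun k hk => ?_, ?_, ?_⟩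
    · dsimp only; split_ifs <;> norm_num
    · dsimp only; split_ifs <;> norm_num
    · by_contra h
      exact hk (if_neg h)
    · rw [Finset.sum_ite_mem, Finset.inter_eq_right.2 hF, Finset.sum_const, nsmul_eq_mul, mul_one]
    · have h2 : ∑ k ∈ (range N).filter b, (if k ∈ F then (1 : ℝ) else 0) = m := by
        rw [Finset.sum_ite_mem, Finset.sum_const, nsmul_eq_mul, mul_one, hm]
        congr 2
        ext k
        rw [Finset.mem_inter, Finset.mem_filter, Finset.mem_filter]
        exact ⟨fun h => ⟨h.2, h.1.2⟩, fun h => ⟨⟨hF h.1, h.2⟩, h.1⟩⟩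
      rw [h2]
      have h3 : m / (F.card : ℝ) ≤ (((range N).filter b).card : ℝ) / N0 :=
        div_le_div₀ (Nat.cast_nonneg _) hmb h0 h1
      rw [if_pos (ha.trans_le h3), mul_one]
      have : (0 : ℝ) ≤ ((F.filter (fun k => ¬ b k)).card : ℝ) := Nat.cast_nonneg _
      linarith
  · have ha' : m / (F.card : ℝ) ≤ 1 / 2 := not_lt.1 ha
    have hp : (0 : ℝ) < 1 - m / (F.card : ℝ) := by linarith
    refine ⟨fun k => if k ∈ F.filter (fun k => ¬ b k) then 1 / (1 - m / (F.card : ℝ)) else 0,
      fun k => ?_, fun k => ?_, fun k hk => ?_, ?_, ?_⟩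
    · dsimp only; split_ifs
      · exact (one_div_pos.2 hp).le
      · exact le_refl 0
    · dsimp only; split_ifs
      · rw [div_le_iff₀ hp]; linarith
      · norm_num
    · by_contra h
      refine hk (if_neg fun h' => h (Finset.mem_filter.1 h').1)
    · rw [Finset.sum_ite_mem,
        Finset.inter_eq_right.2 ((Finset.filter_subset _ _).trans hF), Finset.sum_const,
        nsmul_eq_mul]
      have h2 : ((F.filter (fun k => ¬ b k)).card : ℝ) =
          (F.card : ℝ) * (1 - m / (F.card : ℝ)) := by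
        have h3 : (F.card : ℝ) * (m / (F.card : ℝ)) = m := by field_simp
        rw [mul_sub, mul_one, h3]; linarith
      rw [h2, mul_assoc, mul_one_div_cancel hp.ne', mul_one]
    · have h2 : ∑ k ∈ (range N).filter b, (if k ∈ F.filter (fun k => ¬ b k) then
          1 / (1 - m / (F.card : ℝ)) else 0) = 0 := by
        refine Finset.sum_eq_zero fun k hk => if_neg fun h => ?_
        exact (Finset.mem_filter.1 h).2 (Finset.mem_filter.1 hk).2
      rw [h2]
      split_ifs
      · rw [mul_one]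
        exact hf.le
      · rw [mul_zero]

theorem thm_StepI : St_StepI := by
  intro R ρ l Q e w B _ hl hQ hQl he hR hI
  classical
  have hlpos : 0 < l := hl.pos
  have hl2 : (2 : ℝ) ≤ l := by exact_mod_cast hl.two_le
  let F : ℕ → Finset ℕ := fun x => (range (l ^ e)).filter (fun k => l ∈ R → (x + Q * k) % l ≠ ρ l)
  have hN0p : 0 < (l : ℝ) ^ (e - 1) * ((l : ℝ) - 1) :=
    mul_pos (pow_pos (by linarith) _) (by linarith)
  have hF : ∀ x, (l : ℝ) ^ (e - 1) * ((l : ℝ) - 1) ≤ ((F x).card : ℝ) :=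
    fun x => card_F R ρ l Q e x hl hQl he
  have hFp : ∀ x, (0 : ℝ) < (F x).card := fun x => hN0p.trans_le (hF x)
  choose g g0 g2 gF gs gB using fun x => fibreI (l ^ e) (F x) (Finset.filter_subset _ _)
    (fun k => B (x + Q * k)) _ hN0p (hF x)
  let w' : ℕ → ℝ := fun y => w (y % Q) / ((F (y % Q)).card : ℝ) * g (y % Q) (y / Q)
  have hmod : ∀ x ∈ range Q, ∀ k, (x + Q * k) % Q = x := fun x hx k => by
    rw [Nat.add_mul_mod_self_left, Nat.mod_eq_of_lt (mem_range.1 hx)]
  have hw' : ∀ x ∈ range Q, ∀ k, w' (x + Q * k) = w x / ((F x).card : ℝ) * g x k := by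
    intro x hx k
    have h2 : (x + Q * k) / Q = k := by
      rw [Nat.add_mul_div_left _ _ (by omega), Nat.div_eq_of_lt (mem_range.1 hx), zero_add]
    change w ((x + Q * k) % Q) / ((F ((x + Q * k) % Q)).card : ℝ) *
      g ((x + Q * k) % Q) ((x + Q * k) / Q) = _
    rw [hmod x hx k, h2]
  have hw0 : ∀ x, 0 ≤ w' x := fun x =>
    mul_nonneg (div_nonneg (hI.nonneg _) (Nat.cast_nonneg _)) (g0 _ _)
  have hS : ∀ (S : ℕ → Prop) [DecidablePred S],
      ∑ x ∈ (range (Q * l ^ e)).filter (fun x => S (x % Q)), w' x =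
        ∑ x ∈ (range Q).filter S, w x := by
    intro S _
    rw [Finset.sum_filter, sum_fib Q (l ^ e) hQ, Finset.sum_filter]
    refine Finset.sum_congr rfl fun x hx => ?_
    have h1 : ∀ k ∈ range (l ^ e), (if S ((x + Q * k) % Q) then w' (x + Q * k) else 0) =
        if S x then w x / ((F x).card : ℝ) * g x k else 0 := fun k _ => by
      rw [hmod x hx k, hw' x hx k]
    rw [Finset.sum_congr rfl h1]
    by_cases h : S x
    · simp only [h, if_true]
      rw [← Finset.mul_sum, gs, div_mul_cancel₀ _ (hFp x).ne']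
    · simp only [h, if_false]
      exact Finset.sum_const_zero
  have hle : ∀ x ∈ range Q, ∀ k, w' (x + Q * k) ≤
      w x * (2 / ((l : ℝ) ^ (e - 1) * ((l : ℝ) - 1))) := by
    intro x hx k
    rw [hw' x hx k, div_mul_eq_mul_div, mul_div_assoc]
    refine mul_le_mul_of_nonneg_left ?_ (hI.nonneg x)
    exact div_le_div₀ (by norm_num) (g2 x k) hN0p (hF x)
  refine ⟨w', ⟨hw0, ?_, ?_, ?_⟩, hS, ?_⟩
  · have h1 := hS (fun _ => True)
    simp only [Finset.filter_true] at h1
    rw [h1, hI.total]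
  · intro y hy hne q hq hql
    have h1 : w (y % Q) ≠ 0 := fun h => hne (by
      change w (y % Q) / ((F (y % Q)).card : ℝ) * g (y % Q) (y / Q) = 0
      rw [h, zero_div, zero_mul])
    have h2 : g (y % Q) (y / Q) ≠ 0 := fun h => hne (by
      change w (y % Q) / ((F (y % Q)).card : ℝ) * g (y % Q) (y / Q) = 0
      rw [h, mul_zero])
    rcases Nat.lt_succ_iff_lt_or_eq.1 hql with h3 | h3
    · have h4 := hI.supp (y % Q) (mem_range.2 (Nat.mod_lt _ hQ)) h1 q hq h3
      rwa [Nat.mod_mod_of_dvd _ (hR q hq h3)] at h4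
    · subst h3
      have h4 := (Finset.mem_filter.1 (gF _ _ h2)).2 hq
      rwa [Nat.mod_add_div] at h4
  · intro D c hD
    obtain ⟨D0, D1, hD0, hD1, rfl⟩ := (Nat.dvd_mul).1 hD
    obtain ⟨a, hae, rfl⟩ := (Nat.dvd_prime_pow hl).1 hD1
    rcases Nat.eq_zero_or_pos a with ha | ha
    · subst ha
      rw [pow_zero, mul_one]
      have h1 := hS (fun x => x % D0 = c % D0)
      have h2 := hI.bound D0 c hD0
      unfold cls at h2 ⊢
      rw [← h1] at h2
      refine le_of_eq_of_le ?_ h2
      refine Finset.sum_congr (Finset.filter_congr fun x _ => ?_) fun _ _ => rfl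
      rw [Nat.mod_mod_of_dvd _ hD0]
    · have hcop : D0.Coprime (l ^ a) := (Nat.Coprime.coprime_dvd_left hD0 hQl).pow_right a
      have hD0p : 0 < D0 := Nat.pos_of_dvd_of_pos hD0 hQ
      have hpf : (D0 * l ^ a).primeFactors.card = D0.primeFactors.card + 1 := by
        rw [hcop.primeFactors_mul, Finset.card_union_of_disjoint hcop.disjoint_primeFactors,
          Nat.primeFactors_prime_pow ha.ne' hl, Finset.card_singleton]
      have htot : (((D0 * l ^ a).totient : ℕ) : ℝ) =
          (D0.totient : ℝ) * ((l : ℝ) ^ (a - 1) * ((l : ℝ) - 1)) := by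
        rw [Nat.totient_mul hcop, Nat.totient_prime_pow hl ha, Nat.cast_mul, Nat.cast_mul,
          Nat.cast_pow, Nat.cast_sub hl.one_lt.le, Nat.cast_one]
      have hhh : hh (D0 * l ^ a) = hh D0 * (2 / ((l : ℝ) ^ (a - 1) * ((l : ℝ) - 1))) := by
        unfold hh
        rw [hpf, htot, pow_succ, mul_div_mul_comm]
      have hexp : (l : ℝ) ^ (e - a) * (2 / ((l : ℝ) ^ (e - 1) * ((l : ℝ) - 1))) =
          2 / ((l : ℝ) ^ (a - 1) * ((l : ℝ) - 1)) := by
        have h1 : (l : ℝ) ^ (e - 1) = (l : ℝ) ^ (e - a) * (l : ℝ) ^ (a - 1) := by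
          rw [← pow_add]; congr 1; omega
        have h2 : (l : ℝ) ^ (e - a) ≠ 0 := pow_ne_zero _ (by linarith)
        have h3 : (l : ℝ) ^ (a - 1) ≠ 0 := pow_ne_zero _ (by linarith)
        have h4 : (l : ℝ) - 1 ≠ 0 := by linarith
        rw [h1]
        field_simp
      have key : ∀ x ∈ range Q, (∑ k ∈ range (l ^ e),
          if (x + Q * k) % (D0 * l ^ a) = c % (D0 * l ^ a) then w' (x + Q * k) else 0) ≤
          (if x % D0 = c % D0 then w x else 0) * (2 / ((l : ℝ) ^ (a - 1) * ((l : ℝ) - 1))) := by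
        intro x hx
        by_cases hxc : x % D0 = c % D0
        · rw [if_pos hxc, ← Finset.sum_filter]
          have h1 : ∑ k ∈ (range (l ^ e)).filter
              (fun k => (x + Q * k) % (D0 * l ^ a) = c % (D0 * l ^ a)), w' (x + Q * k) ≤
              ∑ k ∈ (range (l ^ e)).filter (fun k => (x + Q * k) % l ^ a = c % l ^ a),
                w x * (2 / ((l : ℝ) ^ (e - 1) * ((l : ℝ) - 1))) := by
            refine (Finset.sum_le_sum_of_subset_of_nonneg ?_ fun k _ _ => hw0 _).trans
              (Finset.sum_le_sum fun k _ => hle x hx k)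
            intro k hk
            obtain ⟨hk1, hk2⟩ := Finset.mem_filter.1 hk
            refine Finset.mem_filter.2 ⟨hk1, ?_⟩
            rw [← Nat.mod_mod_of_dvd (x + Q * k) (Dvd.intro_left D0 rfl),
              ← Nat.mod_mod_of_dvd c (Dvd.intro_left D0 rfl), hk2]
          refine h1.trans ?_
          rw [Finset.sum_const, nsmul_eq_mul, ← hexp]
          have h2 : ((((range (l ^ e)).filter
              (fun k => (x + Q * k) % l ^ a = c % l ^ a)).card : ℕ) : ℝ) ≤ (l : ℝ) ^ (e - a) := by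
            exact_mod_cast card_res l Q e a x (c % l ^ a) hlpos hQl hae
          have h3 : 0 ≤ w x * (2 / ((l : ℝ) ^ (e - 1) * ((l : ℝ) - 1))) :=
            mul_nonneg (hI.nonneg x) (div_nonneg (by norm_num) hN0p.le)
          calc _ ≤ (l : ℝ) ^ (e - a) * (w x * (2 / ((l : ℝ) ^ (e - 1) * ((l : ℝ) - 1)))) :=
                mul_le_mul_of_nonneg_right h2 h3
            _ = _ := by ring
        · rw [if_neg hxc, zero_mul]
          refine (Finset.sum_eq_zero fun k _ => if_neg fun h => hxc ?_).le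
          have h1 : (x + Q * k) % D0 = c % D0 := by
            rw [← Nat.mod_mod_of_dvd (x + Q * k) (Dvd.intro (l ^ a) rfl),
              ← Nat.mod_mod_of_dvd c (Dvd.intro (l ^ a) rfl), h]
          rw [← h1, ← Nat.mod_mod_of_dvd (x + Q * k) hD0, hmod x hx k]
      unfold cls
      rw [Finset.sum_filter, sum_fib Q (l ^ e) hQ, hhh]
      refine (Finset.sum_le_sum key).trans ?_
      rw [← Finset.sum_mul, ← Finset.sum_filter]
      refine mul_le_mul_of_nonneg_right (hI.bound D0 c hD0) ?_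
      exact div_nonneg (by norm_num) (mul_nonneg (pow_nonneg (by linarith) _) (by linarith))
  · rw [Finset.sum_filter, sum_fib Q (l ^ e) hQ]
    refine Finset.sum_le_sum fun x hx => ?_
    rw [← Finset.sum_filter]
    have h1 : ∑ k ∈ (range (l ^ e)).filter (fun k => B (x + Q * k)), w' (x + Q * k) =
        w x / ((F x).card : ℝ) * ∑ k ∈ (range (l ^ e)).filter (fun k => B (x + Q * k)), g x k := by
      rw [Finset.mul_sum]
      exact Finset.sum_congr rfl fun k _ => hw' x hx k
    rw [h1]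
    calc _ ≤ w x / ((F x).card : ℝ) * (((F x).card : ℝ) *
          (if 1 / 2 < ((((range (l ^ e)).filter (fun k => B (x + Q * k))).card : ℝ) /
            ((l : ℝ) ^ (e - 1) * ((l : ℝ) - 1))) then 1 else 0)) :=
          mul_le_mul_of_nonneg_left (gB x) (div_nonneg (hI.nonneg x) (hFp x).le)
      _ = _ := by
          have h2 : ((F x).card : ℝ) ≠ 0 := (hFp x).ne'
          rw [← mul_assoc, div_mul_cancel₀ _ h2]

end Pool.Agent.CVE
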