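import Mathlib
import Pool.Agent.CVE.Stmts
import Pool.Agent.CVE.StepI
import Pool.Agent.CVE.CovK
import Pool.Agent.CVD.Mom

set_option autoImplicit false

/-!
# CVE/CovE: the covering lemma with exempt indices (adapted from `CVD/Cov.lean`, helper24)

For the exempt indices `i` (the set `E`) the modulus `d i` has its greatest prime factor `l ≥ y`, and at most `(l - 1)/4` exempt
indices belong to one `l`.
-/

namespace Pool.Agent.CVE

open Finset Pool.Agent.CVD

/-- `l` is the greatest prime factor of `D` -/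
def IsGpf (l D : ℕ) : Prop := l.Prime ∧ l ∣ D ∧ ∀ p : ℕ, p.Prime → p ∣ D → p ≤ l

/-- the covering lemma with exempt indices -/
def St_CovE : Prop := ∀ ε K : ℝ, 0 < ε → ε < 1 → 0 ≤ K → ∃ y₀ : ℕ, ∀ y : ℕ, y₀ ≤ y → ∃ Z₀ : ℕ, 1 ≤ Z₀ ∧
  ∀ (R : Finset ℕ) (ρ : ℕ → ℕ), (∀ l ∈ R, l.Prime) →
  ∀ (I E : Finset ℕ) (d c : ℕ → ℕ), (∀ i ∈ I, Z₀ ≤ d i) → MultK ε K (I.filter (fun i => i ∉ E)) d →
  (∀ i ∈ E, ∃ l : ℕ, y ≤ l ∧ IsGpf l (d i)) →
  (∀ l : ℕ, l.Prime → ∀ T : Finset ℕ, T ⊆ E → (∀ i ∈ T, IsGpf l (d i)) → (T.card : ℝ) ≤ ((l : ℝ) - 1) / 4) →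
  ∃ j : ℕ, (∀ l ∈ R, j % l ≠ ρ l) ∧ ∀ i ∈ I, j % d i ≠ c i

/-- an indicator bound -/
theorem ind_bound (k : ℕ) (b b1 b2 : ℝ) (hb : b ≤ b1 + b2) (h1 : b1 ≤ 1 / 4) (h2 : 0 ≤ b2) :
    (if 1 / 2 < b then (1 : ℝ) else 0) ≤ 4 ^ k * b2 ^ k := by
  split_ifs with h
  · have h3 : 1 ≤ 4 * b2 := by linarith
    rw [← mul_pow]
    exact one_le_pow₀ h3
  · positivity

/-- the exempt part of a fibre -/
theorem exempt_part (l Q e x : ℕ) (J : Finset ℕ) (d c : ℕ → ℕ) (hl : l.Prime) (hQ : 1 ≤ Q)
    (hQl : Q.Coprime l) (he : 1 ≤ e) (hd : ∀ i ∈ J, d i ∣ Q * l ^ e ∧ ¬ d i ∣ Q)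
    (hJ : (J.card : ℝ) ≤ ((l : ℝ) - 1) / 4) :
    (((range (l ^ e)).filter (fun k => ∃ i ∈ J, (x + Q * k) % d i = c i)).card : ℝ) /
      ((l : ℝ) ^ (e - 1) * ((l : ℝ) - 1)) ≤ 1 / 4 := by
  classical
  have hl1 : (1 : ℝ) < l := by exact_mod_cast hl.one_lt
  have hl0 : (0 : ℝ) < l := by linarith
  have hld : ∀ i ∈ J, l ∣ d i := by
    intro i hi
    by_contra hcon
    apply (hd i hi).2
    have h1 : Nat.Coprime (d i) (l ^ e) :=
      (Nat.Coprime.pow_left e ((Nat.Prime.coprime_iff_not_dvd hl).mpr hcon)).symm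
    exact h1.dvd_of_dvd_mul_right (hd i hi).1
  have hone : ∀ i ∈ J, ((range (l ^ e)).filter (fun k => (x + Q * k) % d i = c i)).card ≤
      l ^ (e - 1) := by
    intro i hi
    have h1 := MomAux.cnt l Q e 1 x (c i % l ^ 1) hl.pos hQl he
    refine le_trans (Finset.card_le_card ?_) h1
    intro k hk
    rw [mem_filter] at hk ⊢
    refine ⟨hk.1, ?_⟩
    rw [← hk.2, pow_one, Nat.mod_mod_of_dvd _ (hld i hi)]
  have hsub : (range (l ^ e)).filter (fun k => ∃ i ∈ J, (x + Q * k) % d i = c i) ⊆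
      J.biUnion (fun i => (range (l ^ e)).filter (fun k => (x + Q * k) % d i = c i)) := by
    intro k hk
    rw [mem_filter] at hk
    obtain ⟨hk1, i, hi, hk2⟩ := hk
    rw [mem_biUnion]
    exact ⟨i, hi, mem_filter.2 ⟨hk1, hk2⟩⟩
  have h2 := (card_le_card hsub).trans (card_biUnion_le.trans (Finset.sum_le_sum hone))
  rw [Finset.sum_const, smul_eq_mul] at h2
  have h3 : (((range (l ^ e)).filter (fun k => ∃ i ∈ J, (x + Q * k) % d i = c i)).card : ℝ) ≤
      (J.card : ℝ) * (l : ℝ) ^ (e - 1) := by exact_mod_cast h2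
  have hden : (0 : ℝ) < (l : ℝ) ^ (e - 1) * ((l : ℝ) - 1) :=
    mul_pos (pow_pos hl0 _) (by linarith)
  rw [div_le_iff₀ hden]
  have h4 : (J.card : ℝ) * (l : ℝ) ^ (e - 1) ≤ (((l : ℝ) - 1) / 4) * (l : ℝ) ^ (e - 1) :=
    mul_le_mul_of_nonneg_right hJ (pow_nonneg hl0.le _)
  calc _ ≤ (J.card : ℝ) * (l : ℝ) ^ (e - 1) := h3
    _ ≤ _ := h4
    _ = _ := by ring

open Classical in
theorem thm_CovE (h0 : St_StepI) (h1 : St_MomK) (h2 : St_GK) (h3 : St_TK) : St_CovE := by
  intro ε K hε hε1 hK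
  obtain ⟨k, hk⟩ : ∃ k : ℕ, k = ⌈2 / ε⌉₊ := ⟨_, rfl⟩
  have hkε : 2 ≤ k * ε := by
    have h := Nat.le_ceil (2 / ε)
    rw [← hk] at h
    rwa [div_le_iff₀ hε] at h
  have hk1 : 1 ≤ k := by
    rcases Nat.eq_zero_or_pos k with h | h
    · rw [h] at hkε
      norm_num at hkε
    · exact h
  obtain ⟨C, y₀, hC, hG⟩ := h2 ε K k hε hK hkε
  obtain ⟨y₁, hy0', hy2', htail'⟩ := tail_smallK (4 ^ k) C y₀
  refine ⟨y₁, fun y hyy => ?_⟩
  have hy0 : y₀ ≤ y := hy0'.trans hyy
  have hy2 : 2 ≤ y := hy2'.trans hyy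
  have htail : ∀ t : ℕ, ∑ l ∈ Ico y t, 4 ^ k * (C / (l : ℝ) ^ (3 / 2 : ℝ)) ≤ 1 / 4 := by
    intro t
    refine le_trans ?_ (htail' t)
    refine Finset.sum_le_sum_of_subset_of_nonneg (Finset.Ico_subset_Ico hyy le_rfl) fun l _ _ => ?_
    positivity
  obtain ⟨Z₀, hZ1, hT⟩ := h3 ε K y hε hε1 hK
  refine ⟨Z₀, hZ1, ?_⟩
  intro R ρ hR I E d c hZ hM hEy hEc
  set N : ℕ := (∏ i ∈ I, d i) * ∏ l ∈ R, l with hNdef
  have hN0 : N ≠ 0 := by
    rw [hNdef]
    refine mul_ne_zero (Finset.prod_ne_zero_iff.mpr fun i hi => ?_) (Finset.prod_ne_zero_iff.mpr fun l hl => ?_)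
    · have := hZ i hi
      omega
    · exact (hR l hl).pos.ne'
  have hdN : ∀ i ∈ I, d i ∣ N := fun i hi => Dvd.dvd.mul_right (Finset.dvd_prod_of_mem d hi) _
  have hRN : ∀ l ∈ R, l ∣ N := fun l hl => Dvd.dvd.mul_left (Finset.dvd_prod_of_mem (fun l => l) hl) _
  have hRQ : ∀ t : ℕ, ∀ q ∈ R, q < t → q ∣ QQ N t := by
    intro t q hq hqt
    refine QQ_dvd N q t hN0 (hRN q hq) ?_
    intro p hp hpq
    rw [(Nat.prime_dvd_prime_iff_eq hp (hR q hq)).mp hpq]
    exact hqt
  -- Claim A
  have hA : ∀ t : ℕ, ∃ w : ℕ → ℝ, Inv R ρ t (QQ N t) w := by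
    intro t
    induction t with
    | zero => exact ⟨fun _ => 1, by rw [QQ_zero]; exact inv_zero R ρ⟩
    | succ t ih =>
      obtain ⟨w, hw⟩ := ih
      by_cases ht : t.Prime
      · by_cases he : N.factorization t = 0
        · refine ⟨w, ?_⟩
          rw [QQ_succ_prime N t ht, he, pow_zero, mul_one]
          refine inv_skip R ρ t _ w hw ?_
          intro htR
          have := (ht.dvd_iff_one_le_factorization hN0).mp (hRN t htR)
          omega
        · obtain ⟨w', hw', -, -⟩ := h0 R ρ t (QQ N t) (N.factorization t) w (fun _ => False) ht (QQ_pos N t)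
            (QQ_coprime N t ht) (by omega) (fun q hq hqt => hRQ t q hq hqt) hw
          exact ⟨w', by rw [QQ_succ_prime N t ht]; exact hw'⟩
      · refine ⟨w, ?_⟩
        rw [QQ_succ_nprime N t ht]
        exact inv_skip R ρ t _ w hw (fun htR => ht (hR t htR))
  -- Claim B
  have hB : ∀ t : ℕ, y ≤ t → ∃ w : ℕ → ℝ, Inv R ρ t (QQ N t) w ∧
      ∑ x ∈ (range (QQ N t)).filter (fun x => ∃ i ∈ I, d i ∣ QQ N t ∧ x % d i = c i), w x ≤
        1 / 4 + ∑ l ∈ Ico y t, 4 ^ k * (C / (l : ℝ) ^ (3 / 2 : ℝ)) := by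
    intro t hyt
    induction t, hyt using Nat.le_induction with
    | base =>
      obtain ⟨w, hw⟩ := hA y
      refine ⟨w, hw, ?_⟩
      rw [Finset.Ico_self, Finset.sum_empty, add_zero]
      set J := I.filter (fun i => d i ∣ QQ N y) with hJ
      have hsub : (range (QQ N y)).filter (fun x => ∃ i ∈ I, d i ∣ QQ N y ∧ x % d i = c i) ⊆
          J.biUnion (fun i => (range (QQ N y)).filter (fun x => x % d i = c i % d i)) := by
        intro x hx
        rw [Finset.mem_filter] at hx
        obtain ⟨hx1, i, hi, hdi, hxi⟩ := hx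
        rw [Finset.mem_biUnion]
        refine ⟨i, by rw [hJ, Finset.mem_filter]; exact ⟨hi, hdi⟩, ?_⟩
        rw [Finset.mem_filter]
        refine ⟨hx1, ?_⟩
        rw [← hxi, Nat.mod_mod]
      calc ∑ x ∈ (range (QQ N y)).filter (fun x => ∃ i ∈ I, d i ∣ QQ N y ∧ x % d i = c i), w x
          ≤ ∑ x ∈ J.biUnion (fun i => (range (QQ N y)).filter (fun x => x % d i = c i % d i)), w x :=
            Finset.sum_le_sum_of_subset_of_nonneg hsub (fun x _ _ => hw.nonneg x)
        _ ≤ ∑ i ∈ J, ∑ x ∈ (range (QQ N y)).filter (fun x => x % d i = c i % d i), w x :=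
            sum_biUnion_le' _ _ w (fun x => hw.nonneg x)
        _ ≤ ∑ i ∈ J, hh (d i) := by
            refine Finset.sum_le_sum ?_
            intro i hi
            rw [hJ, Finset.mem_filter] at hi
            exact hw.bound (d i) (c i) hi.2
        _ ≤ 1 / 4 := by
            refine hT (QQ N y) J d (QQ_pos N y) (fun p hp hpd => QQ_lt N y p hp hpd) ?_
              (MultK_mono ε K (I.filter (fun i => i ∉ E)) J d ?_ hM)
            · intro i hi
              rw [hJ, Finset.mem_filter] at hi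
              exact ⟨hZ i hi.1, hi.2⟩
            · intro i hi
              rw [hJ, Finset.mem_filter] at hi
              rw [Finset.mem_filter]
              refine ⟨hi.1, fun hiE => ?_⟩
              obtain ⟨l, hyl, hl, hld, -⟩ := hEy i hiE
              have := QQ_lt N y l hl (hld.trans hi.2)
              omega
    | succ t hyt ih =>
      obtain ⟨w, hw, hkill⟩ := ih
      have hterm : 0 ≤ 4 ^ k * (C / (t : ℝ) ^ (3 / 2 : ℝ)) := by positivity
      rw [Finset.sum_Ico_succ_top hyt]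
      by_cases ht : t.Prime ∧ N.factorization t ≠ 0
      · obtain ⟨ht, he⟩ := ht
        set e := N.factorization t with hedef
        set J := I.filter (fun i => d i ∣ QQ N t * t ^ e ∧ ¬ d i ∣ QQ N t) with hJ
        have hJp : ∀ i ∈ J, d i ∣ QQ N t * t ^ e ∧ ¬ d i ∣ QQ N t := by
          intro i hi
          rw [hJ, Finset.mem_filter] at hi
          exact hi.2
        obtain ⟨w', hw', hmarg, hBs⟩ := h0 R ρ t (QQ N t) e w (fun x => ∃ i ∈ J, x % d i = c i) ht
          (QQ_pos N t) (QQ_coprime N t ht) (by omega) (fun q hq hqt => hRQ t q hq hqt) hw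
        set J1 := J.filter (fun i => i ∈ E) with hJ1
        set J2 := J.filter (fun i => i ∉ E) with hJ2
        have hJ1p : ∀ i ∈ J1, d i ∣ QQ N t * t ^ e ∧ ¬ d i ∣ QQ N t := fun i hi =>
          hJp i (Finset.mem_filter.mp hi).1
        have hJ2p : ∀ i ∈ J2, d i ∣ QQ N t * t ^ e ∧ ¬ d i ∣ QQ N t := fun i hi =>
          hJp i (Finset.mem_filter.mp hi).1
        have hJ2s : J2 ⊆ I.filter (fun i => i ∉ E) := by
          intro i hi
          rw [hJ2, Finset.mem_filter, hJ, Finset.mem_filter] at hi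
          rw [Finset.mem_filter]
          exact ⟨hi.1.1, hi.2⟩
        have hJ1c : (J1.card : ℝ) ≤ ((t : ℝ) - 1) / 4 := by
          refine hEc t ht J1 (fun i hi => (Finset.mem_filter.mp hi).2) ?_
          intro i hi
          obtain ⟨k1, k2⟩ := hJ1p i hi
          refine ⟨ht, ?_, ?_⟩
          · by_contra hcon
            apply k2
            have k3 : Nat.Coprime (d i) (t ^ e) :=
              (Nat.Coprime.pow_left e ((Nat.Prime.coprime_iff_not_dvd ht).mpr hcon)).symm
            exact k3.dvd_of_dvd_mul_right k1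
          · intro p hp hpd
            have k3 := QQ_lt N (t + 1) p hp (by rw [QQ_succ_prime N t ht]; exact hpd.trans k1)
            omega
        have hmom := h1 R ρ t t (QQ N t) e w J2 d c ht (QQ_pos N t) (QQ_coprime N t ht) (by omega) hw hJ2p k
        have hg := hG t (QQ N t) e J2 d ht (le_trans hy0 hyt) (QQ_pos N t)
          (fun p hp hpd => QQ_lt N t p hp hpd) hJ2p (MultK_mono ε K _ J2 d hJ2s hM)
        have hm := hmarg (fun x => ∃ i ∈ I, d i ∣ QQ N t ∧ x % d i = c i)
        refine ⟨w', by rw [QQ_succ_prime N t ht]; exact hw', ?_⟩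
        rw [QQ_succ_prime N t ht, ← hedef]
        have hsub : (range (QQ N t * t ^ e)).filter (fun x => ∃ i ∈ I, d i ∣ QQ N t * t ^ e ∧ x % d i = c i) ⊆
            (range (QQ N t * t ^ e)).filter (fun x => ∃ i ∈ I, d i ∣ QQ N t ∧ (x % QQ N t) % d i = c i) ∪
            (range (QQ N t * t ^ e)).filter (fun x => ∃ i ∈ J, x % d i = c i) := by
          intro x hx
          rw [Finset.mem_filter] at hx
          obtain ⟨hx1, i, hi, hdi, hxi⟩ := hx
          rw [Finset.mem_union, Finset.mem_filter, Finset.mem_filter]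
          by_cases hdt : d i ∣ QQ N t
          · left
            refine ⟨hx1, i, hi, hdt, ?_⟩
            rw [Nat.mod_mod_of_dvd _ hdt]
            exact hxi
          · right
            refine ⟨hx1, i, ?_, hxi⟩
            rw [hJ, Finset.mem_filter]
            exact ⟨hi, hdi, hdt⟩
        have hle : ∑ x ∈ (range (QQ N t * t ^ e)).filter (fun x => ∃ i ∈ I, d i ∣ QQ N t * t ^ e ∧ x % d i = c i), w' x
            ≤ ∑ x ∈ (range (QQ N t * t ^ e)).filter (fun x => ∃ i ∈ I, d i ∣ QQ N t ∧ (x % QQ N t) % d i = c i), w' x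
              + ∑ x ∈ (range (QQ N t * t ^ e)).filter (fun x => ∃ i ∈ J, x % d i = c i), w' x := by
          refine le_trans (Finset.sum_le_sum_of_subset_of_nonneg hsub (fun x _ _ => hw'.nonneg x)) ?_
          rw [← Finset.sum_union_inter]
          have : 0 ≤ ∑ x ∈ (range (QQ N t * t ^ e)).filter (fun x => ∃ i ∈ I, d i ∣ QQ N t ∧ (x % QQ N t) % d i = c i) ∩
              (range (QQ N t * t ^ e)).filter (fun x => ∃ i ∈ J, x % d i = c i), w' x :=
            Finset.sum_nonneg (fun x _ => hw'.nonneg x)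
          linarith
        have e1 : ∑ x ∈ (range (QQ N t * t ^ e)).filter (fun x => ∃ i ∈ I, d i ∣ QQ N t ∧ (x % QQ N t) % d i = c i), w' x
            ≤ 1 / 4 + ∑ l ∈ Ico y t, 4 ^ k * (C / (l : ℝ) ^ (3 / 2 : ℝ)) := by
          refine le_trans (le_of_eq ?_) hkill
          convert hm using 2
        have e2 : ∑ x ∈ (range (QQ N t * t ^ e)).filter (fun x => ∃ i ∈ J, x % d i = c i), w' x
            ≤ 4 ^ k * (C / (t : ℝ) ^ (3 / 2 : ℝ)) := by
          have hpart : ∀ x ∈ range (QQ N t), w x * (if 1 / 2 < (((range (t ^ e)).filter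
              (fun k => ∃ i ∈ J, (x + QQ N t * k) % d i = c i)).card : ℝ) /
              ((t : ℝ) ^ (e - 1) * ((t : ℝ) - 1)) then 1 else 0) ≤
              4 ^ k * (w x * ((((range (t ^ e)).filter
              (fun k => ∃ i ∈ J2, (x + QQ N t * k) % d i = c i)).card : ℝ) /
              ((t : ℝ) ^ (e - 1) * ((t : ℝ) - 1))) ^ k) := by
            intro x _
            have ht1 : (1 : ℝ) < t := by exact_mod_cast ht.one_lt
            have hden : (0 : ℝ) < (t : ℝ) ^ (e - 1) * ((t : ℝ) - 1) :=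
              mul_pos (pow_pos (by linarith) _) (by linarith)
            have s1 := exempt_part t (QQ N t) e x J1 d c ht (QQ_pos N t) (QQ_coprime N t ht)
              (by omega) hJ1p hJ1c
            have s2 : (((range (t ^ e)).filter
                (fun k => ∃ i ∈ J, (x + QQ N t * k) % d i = c i)).card : ℝ) ≤
                (((range (t ^ e)).filter (fun k => ∃ i ∈ J1, (x + QQ N t * k) % d i = c i)).card : ℝ) +
                (((range (t ^ e)).filter (fun k => ∃ i ∈ J2, (x + QQ N t * k) % d i = c i)).card : ℝ) := by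
              have s3 : (range (t ^ e)).filter (fun k => ∃ i ∈ J, (x + QQ N t * k) % d i = c i) ⊆
                  (range (t ^ e)).filter (fun k => ∃ i ∈ J1, (x + QQ N t * k) % d i = c i) ∪
                  (range (t ^ e)).filter (fun k => ∃ i ∈ J2, (x + QQ N t * k) % d i = c i) := by
                intro k' hk'
                rw [Finset.mem_filter] at hk'
                obtain ⟨k1, i, hi, k2⟩ := hk'
                rw [Finset.mem_union, Finset.mem_filter, Finset.mem_filter]
                by_cases hiE : i ∈ E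
                · exact Or.inl ⟨k1, i, Finset.mem_filter.mpr ⟨hi, hiE⟩, k2⟩
                · exact Or.inr ⟨k1, i, Finset.mem_filter.mpr ⟨hi, hiE⟩, k2⟩
              exact_mod_cast (Finset.card_le_card s3).trans (Finset.card_union_le _ _)
            have s4 := ind_bound k
              ((((range (t ^ e)).filter (fun k => ∃ i ∈ J, (x + QQ N t * k) % d i = c i)).card : ℝ) /
                ((t : ℝ) ^ (e - 1) * ((t : ℝ) - 1)))
              ((((range (t ^ e)).filter (fun k => ∃ i ∈ J1, (x + QQ N t * k) % d i = c i)).card : ℝ) /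
                ((t : ℝ) ^ (e - 1) * ((t : ℝ) - 1)))
              ((((range (t ^ e)).filter (fun k => ∃ i ∈ J2, (x + QQ N t * k) % d i = c i)).card : ℝ) /
                ((t : ℝ) ^ (e - 1) * ((t : ℝ) - 1)))
              (by rw [← add_div]; exact div_le_div_of_nonneg_right s2 hden.le) s1
              (div_nonneg (Nat.cast_nonneg _) hden.le)
            calc _ ≤ w x * (4 ^ k * ((((range (t ^ e)).filter
                  (fun k => ∃ i ∈ J2, (x + QQ N t * k) % d i = c i)).card : ℝ) /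
                  ((t : ℝ) ^ (e - 1) * ((t : ℝ) - 1))) ^ k) :=
                  mul_le_mul_of_nonneg_left s4 (hw.nonneg x)
              _ = _ := by ring
          have e3 : 4 ^ k * ∑ x ∈ range (QQ N t), w x * ((((range (t ^ e)).filter
              (fun k => ∃ i ∈ J2, (x + QQ N t * k) % d i = c i)).card : ℝ) /
              ((t : ℝ) ^ (e - 1) * ((t : ℝ) - 1))) ^ k ≤ 4 ^ k * (C / (t : ℝ) ^ (3 / 2 : ℝ)) := by
            refine mul_le_mul_of_nonneg_left ?_ (by positivity)
            refine le_trans ?_ hg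
            convert hmom using 2
          refine le_trans ?_ e3
          refine le_trans ?_ ((Finset.sum_le_sum hpart).trans (le_of_eq (Finset.mul_sum _ _ _).symm))
          convert hBs using 2
        linarith
      · -- nothing happens at `t`
        have hQ : QQ N (t + 1) = QQ N t := by
          by_cases hp : t.Prime
          · have he : N.factorization t = 0 := by
              by_contra hne
              exact ht ⟨hp, hne⟩
            rw [QQ_succ_prime N t hp, he, pow_zero, mul_one]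
          · exact QQ_succ_nprime N t hp
        have htR : t ∉ R := by
          intro htR
          have hp := hR t htR
          have := (hp.dvd_iff_one_le_factorization hN0).mp (hRN t htR)
          exact ht ⟨hp, by omega⟩
        refine ⟨w, by rw [hQ]; exact inv_skip R ρ t _ w hw htR, ?_⟩
        rw [hQ]
        linarith
  -- the end
  set T := max (N + 1) y with hTdef
  obtain ⟨w, hw, hkill⟩ := hB T (le_max_right _ _)
  have hlt : ∀ D : ℕ, D ∣ N → D ∣ QQ N T := by
    intro D hD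
    refine QQ_dvd N D T hN0 hD ?_
    intro p hp hpD
    have : p ≤ N := Nat.le_of_dvd (Nat.pos_of_ne_zero hN0) (hpD.trans hD)
    have : N + 1 ≤ T := le_max_left _ _
    omega
  have hk2 : ∑ x ∈ (range (QQ N T)).filter (fun x => ∃ i ∈ I, d i ∣ QQ N T ∧ x % d i = c i), w x ≤ 1 / 2 := by
    have := htail T
    linarith
  have hex : ∃ x ∈ (range (QQ N T)).filter (fun x => ¬ ∃ i ∈ I, d i ∣ QQ N T ∧ x % d i = c i), w x ≠ 0 := by
    by_contra hcon
    push Not at hcon
    have hz : ∑ x ∈ (range (QQ N T)).filter (fun x => ¬ ∃ i ∈ I, d i ∣ QQ N T ∧ x % d i = c i), w x = 0 :=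
      Finset.sum_eq_zero (fun x hx => hcon x (by simpa using hx))
    have := Finset.sum_filter_add_sum_filter_not (range (QQ N T))
      (fun x => ∃ i ∈ I, d i ∣ QQ N T ∧ x % d i = c i) w
    rw [hz, hw.total, add_zero] at this
    linarith
  obtain ⟨x, hx, hwx⟩ := hex
  rw [Finset.mem_filter] at hx
  refine ⟨x, ?_, ?_⟩
  · intro l hl
    refine hw.supp x hx.1 hwx l hl ?_
    have : l ≤ N := Nat.le_of_dvd (Nat.pos_of_ne_zero hN0) (hRN l hl)
    have : N + 1 ≤ T := le_max_left _ _
    omega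
  · intro i hi hxi
    exact hx.2 ⟨i, hi, hlt _ (hdN i hi), hxi⟩

end Pool.Agent.CVE
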