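import Mathlib
import Pool.Agent.CVE.Stmts
import Pool.Agent.CVD.G3

set_option autoImplicit false

/-! # CVE [EK]: the Euler product with a power of the divisor function (adapted from `CVD/G3.lean`, helper1) -/

namespace Pool.Agent.CVE

open Finset Pool.Agent.CVD

namespace EKx

/-- the multiplicative function -/
noncomputable def ff (k : ℕ) (ε : ℝ) (L : ℕ) : ℝ :=
  (L.divisors.card : ℝ) ^ k * (L : ℝ) ^ (k * ε) * hh L

theorem ff_nonneg (k : ℕ) (ε : ℝ) (L : ℕ) : 0 ≤ ff k ε L := by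
  have := G3x.hh_nonneg L
  unfold ff
  positivity

theorem ff_one (k : ℕ) (ε : ℝ) : ff k ε 1 = 1 := by
  unfold ff
  rw [G3x.hh_one]
  simp

theorem ff_mul (k : ℕ) (ε : ℝ) {m n : ℕ} (h : m.Coprime n) :
    ff k ε (m * n) = ff k ε m * ff k ε n := by
  unfold ff
  rw [G3x.hh_mul h, h.card_divisors_mul, Nat.cast_mul, Nat.cast_mul,
    Real.mul_rpow (Nat.cast_nonneg _) (Nat.cast_nonneg _), mul_pow]
  ring

theorem ff_pow (k : ℕ) (ε : ℝ) {p a : ℕ} (hp : p.Prime) (ha : 1 ≤ a) :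
    ff k ε (p ^ a) ≤ 4 * (((a : ℝ) + 1) ^ k * ((p : ℝ) ^ (k * ε) / p) ^ a) := by
  have hp0 : (0 : ℝ) < p := by exact_mod_cast hp.pos
  unfold ff
  have h1 : ((p ^ a : ℕ) : ℝ) ^ (k * ε) = ((p : ℝ) ^ (k * ε)) ^ a := by
    rw [Nat.cast_pow, ← Real.rpow_natCast, ← Real.rpow_mul hp0.le, mul_comm, Real.rpow_mul hp0.le,
      Real.rpow_natCast]
  rw [Nat.divisors_prime_pow hp, Finset.card_map, Finset.card_range, h1, Nat.cast_add,
    Nat.cast_one, div_pow]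
  have h2 := G3x.hh_pow hp ha
  have h3 : (0 : ℝ) ≤ ((a : ℝ) + 1) ^ k * ((p : ℝ) ^ (k * ε)) ^ a := by positivity
  calc ((a : ℝ) + 1) ^ k * ((p : ℝ) ^ (k * ε)) ^ a * hh (p ^ a)
      ≤ ((a : ℝ) + 1) ^ k * ((p : ℝ) ^ (k * ε)) ^ a * (4 / (p : ℝ) ^ a) :=
        mul_le_mul_of_nonneg_left h2 h3
    _ = _ := by ring

theorem exists_bound (k : ℕ) : ∃ A : ℝ, 0 < A ∧ ∀ v : ℕ,
    ∑ a ∈ Icc 1 v, ((a : ℝ) + 1) ^ k * (3 / 5 : ℝ) ^ (a - 1) ≤ A := by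
  have hs : Summable (fun n : ℕ => ((n : ℝ)) ^ k * (3 / 5 : ℝ) ^ n) :=
    summable_pow_mul_geometric_of_norm_lt_one k (by norm_num)
  have hs2 : Summable (fun n : ℕ => (((n + 2 : ℕ) : ℝ)) ^ k * (3 / 5 : ℝ) ^ (n + 2)) :=
    (summable_nat_add_iff (f := fun n : ℕ => ((n : ℝ)) ^ k * (3 / 5 : ℝ) ^ n) 2).mpr hs
  have hs3 := hs2.mul_left (25 / 9)
  have hnn : ∀ n : ℕ, 0 ≤ 25 / 9 * ((((n + 2 : ℕ) : ℝ)) ^ k * (3 / 5 : ℝ) ^ (n + 2)) := fun n => by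
    positivity
  refine ⟨∑' n : ℕ, 25 / 9 * ((((n + 2 : ℕ) : ℝ)) ^ k * (3 / 5 : ℝ) ^ (n + 2)) + 1, ?_, fun v => ?_⟩
  · have h : 0 ≤ ∑' n : ℕ, 25 / 9 * ((((n + 2 : ℕ) : ℝ)) ^ k * (3 / 5 : ℝ) ^ (n + 2)) :=
      tsum_nonneg hnn
    linarith
  · have h1 : ∑ a ∈ Icc 1 v, ((a : ℝ) + 1) ^ k * (3 / 5 : ℝ) ^ (a - 1) =
        ∑ n ∈ range v, 25 / 9 * ((((n + 2 : ℕ) : ℝ)) ^ k * (3 / 5 : ℝ) ^ (n + 2)) := by
      induction v with
      | zero => simp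
      | succ v ih =>
        rw [Finset.sum_Icc_succ_top (by omega), ih, Finset.sum_range_succ, Nat.add_sub_cancel]
        congr 1
        rw [pow_add]
        push_cast
        ring
    rw [h1]
    have h2 := hs3.sum_le_tsum (range v) fun n _ => hnn n
    linarith

theorem rsum (k : ℕ) {A : ℝ} (hA : ∀ v : ℕ,
    ∑ a ∈ Icc 1 v, ((a : ℝ) + 1) ^ k * (3 / 5 : ℝ) ^ (a - 1) ≤ A) {r : ℝ} (h0 : 0 ≤ r)
    (h1 : r ≤ 3 / 5) (v : ℕ) :
    ∑ a ∈ Icc 1 v, ((a : ℝ) + 1) ^ k * r ^ a ≤ A * r := by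
  calc ∑ a ∈ Icc 1 v, ((a : ℝ) + 1) ^ k * r ^ a
      ≤ ∑ a ∈ Icc 1 v, r * (((a : ℝ) + 1) ^ k * (3 / 5 : ℝ) ^ (a - 1)) := by
        refine Finset.sum_le_sum fun a ha => ?_
        obtain ⟨j, rfl⟩ : ∃ j, a = j + 1 := ⟨a - 1, by have := (mem_Icc.1 ha).1; omega⟩
        rw [Nat.add_sub_cancel]
        have h2 : r ^ j ≤ (3 / 5 : ℝ) ^ j := pow_le_pow_left₀ h0 h1 j
        have h3 : (0 : ℝ) ≤ r * (((j + 1 : ℕ) : ℝ) + 1) ^ k := by positivity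
        calc (((j + 1 : ℕ) : ℝ) + 1) ^ k * r ^ (j + 1)
            = r * (((j + 1 : ℕ) : ℝ) + 1) ^ k * r ^ j := by ring
          _ ≤ r * (((j + 1 : ℕ) : ℝ) + 1) ^ k * (3 / 5 : ℝ) ^ j :=
            mul_le_mul_of_nonneg_left h2 h3
          _ = _ := by ring
    _ = r * ∑ a ∈ Icc 1 v, ((a : ℝ) + 1) ^ k * (3 / 5 : ℝ) ^ (a - 1) := by
        rw [Finset.mul_sum]
    _ ≤ r * A := mul_le_mul_of_nonneg_left (hA v) h0
    _ = A * r := mul_comm _ _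

end EKx

open EKx in
/-- **EK** -/
theorem thm_EK (h0 : St_Eul) : St_EK := by
  intro k c hc
  obtain ⟨A, hA0, hA⟩ := exists_bound k
  obtain ⟨C₁, hC₁⟩ : ∃ C₁ : ℝ, C₁ = 4 * A * Real.exp (k * c) := ⟨_, rfl⟩
  have hC₁0 : 0 < C₁ := by rw [hC₁]; positivity
  refine ⟨Real.exp (8 * C₁) * (4 * C₁) ^ C₁, max 3 ⌈Real.exp (4 * (k * c))⌉₊, by positivity, ?_⟩
  intro l Q hl hQ1 hQ
  have hkc : 0 ≤ (k : ℝ) * c := mul_nonneg (Nat.cast_nonneg k) hc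
  have hl3 : 3 ≤ l := (le_max_left _ _).trans hl
  have hl3' : (3 : ℝ) ≤ l := by exact_mod_cast hl3
  have hl0 : (0 : ℝ) < l := by linarith
  have hlog : 1 < Real.log l := by
    rw [Real.lt_log_iff_exp_lt hl0]
    have := Real.exp_one_lt_d9
    linarith
  have hle : Real.exp (4 * (k * c)) ≤ l := by
    have h1 : ⌈Real.exp (4 * (k * c))⌉₊ ≤ l := (le_max_right _ _).trans hl
    exact Nat.ceil_le.1 h1
  have hlc : 4 * (k * c) ≤ Real.log l := by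
    rw [Real.le_log_iff_exp_le hl0]
    exact hle
  obtain ⟨ε, hε⟩ : ∃ ε : ℝ, ε = c / Real.log l := ⟨_, rfl⟩
  have hkε : (k : ℝ) * ε = (k * c) / Real.log l := by rw [hε]; ring
  have hε4 : (k : ℝ) * ε ≤ 1 / 4 := by
    rw [hkε, div_le_div_iff₀ (by linarith) (by norm_num)]
    linarith
  have hε0 : 0 ≤ (k : ℝ) * ε := by rw [hkε]; positivity
  have hlE : (l : ℝ) ^ (k * ε) = Real.exp (k * c) := by
    rw [Real.rpow_def_of_pos hl0, hkε]
    congr 1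
    field_simp
  have hb : ∀ p ∈ Q.primeFactors, ∑ a ∈ Icc 1 (Q.factorization p), ff k ε (p ^ a) ≤
      C₁ * (1 / (p : ℝ)) := by
    intro p hp
    have hpp := Nat.prime_of_mem_primeFactors hp
    have hpl := hQ p hpp (Nat.dvd_of_mem_primeFactors hp)
    have hp0 : (0 : ℝ) < p := by exact_mod_cast hpp.pos
    have hr0 : 0 ≤ (p : ℝ) ^ (k * ε) / p := by positivity
    have hr1 : (p : ℝ) ^ (k * ε) / p ≤ Real.exp (k * c) / p := by
      rw [← hlE]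
      refine div_le_div_of_nonneg_right ?_ hp0.le
      exact Real.rpow_le_rpow hp0.le (by exact_mod_cast hpl.le) hε0
    have hr2 : (p : ℝ) ^ (k * ε) / p ≤ 3 / 5 := by
      have h := G3x.r_le (ε := (k * ε) / 2) (by linarith) hpp
      rw [show 2 * (k * ε / 2) = k * ε by ring] at h
      exact h
    calc ∑ a ∈ Icc 1 (Q.factorization p), ff k ε (p ^ a)
        ≤ ∑ a ∈ Icc 1 (Q.factorization p),
            4 * (((a : ℝ) + 1) ^ k * ((p : ℝ) ^ (k * ε) / p) ^ a) :=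
          Finset.sum_le_sum fun a ha => ff_pow k ε hpp (mem_Icc.1 ha).1
      _ = 4 * ∑ a ∈ Icc 1 (Q.factorization p),
            (((a : ℝ) + 1) ^ k * ((p : ℝ) ^ (k * ε) / p) ^ a) := by rw [Finset.mul_sum]
      _ ≤ 4 * (A * ((p : ℝ) ^ (k * ε) / p)) :=
          mul_le_mul_of_nonneg_left (rsum k hA hr0 hr2 _) (by norm_num)
      _ ≤ 4 * (A * (Real.exp (k * c) / p)) := by
          have := mul_le_mul_of_nonneg_left hr1 hA0.le
          linarith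
      _ = C₁ * (1 / (p : ℝ)) := by rw [hC₁]; ring
  have h1 := h0 (ff k ε) (fun p => C₁ * (1 / (p : ℝ))) (ff_nonneg k ε) (ff_one k ε)
    (fun m n h => ff_mul k ε h) Q hQ1 hb
  have h2 : ∏ p ∈ Q.primeFactors, (1 + C₁ * (1 / (p : ℝ))) ≤
      Real.exp (C₁ * (Real.log (Real.log l) + 8)) := by
    calc ∏ p ∈ Q.primeFactors, (1 + C₁ * (1 / (p : ℝ)))
        ≤ ∏ p ∈ Q.primeFactors, Real.exp (C₁ * (1 / (p : ℝ))) := by
          refine Finset.prod_le_prod (fun p _ => by positivity) fun p _ => ?_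
          have := Real.add_one_le_exp (C₁ * (1 / (p : ℝ)))
          linarith
      _ = Real.exp (C₁ * ∑ p ∈ Q.primeFactors, 1 / (p : ℝ)) := by
          rw [← Real.exp_sum, Finset.mul_sum]
      _ ≤ _ := Real.exp_le_exp.2 (mul_le_mul_of_nonneg_left (G3x.recip hl3 hQ) hC₁0.le)
  have h3 : Real.exp (C₁ * (Real.log (Real.log l) + 8)) ≤
      Real.exp (8 * C₁) * (4 * C₁) ^ C₁ * (l : ℝ) ^ (1 / 4 : ℝ) := by
    have h4 : Real.exp (C₁ * (Real.log (Real.log l) + 8)) =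
        Real.exp (8 * C₁) * (Real.log l) ^ C₁ := by
      rw [Real.rpow_def_of_pos (by linarith), ← Real.exp_add]
      congr 1
      ring
    rw [h4, mul_assoc]
    refine mul_le_mul_of_nonneg_left ?_ (Real.exp_pos _).le
    have hδ : (0 : ℝ) < 1 / (4 * C₁) := by positivity
    have h5 := Real.log_le_rpow_div hl0.le hδ
    calc (Real.log l) ^ C₁ ≤ ((l : ℝ) ^ (1 / (4 * C₁)) / (1 / (4 * C₁))) ^ C₁ :=
          Real.rpow_le_rpow (by linarith) h5 hC₁0.le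
      _ = ((4 * C₁) * (l : ℝ) ^ (1 / (4 * C₁))) ^ C₁ := by
          congr 1
          field_simp
      _ = (4 * C₁) ^ C₁ * ((l : ℝ) ^ (1 / (4 * C₁))) ^ C₁ :=
          Real.mul_rpow (by positivity) (by positivity)
      _ = (4 * C₁) ^ C₁ * (l : ℝ) ^ (1 / 4 : ℝ) := by
          rw [← Real.rpow_mul hl0.le]
          congr 2
          field_simp
  have h4 : ∑ L ∈ Q.divisors, (L.divisors.card : ℝ) ^ k * (L : ℝ) ^ (k * (c / Real.log l)) * hh L =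
      ∑ L ∈ Q.divisors, ff k ε L := by
    rw [hε]
    rfl
  rw [h4]
  exact (h1.trans h2).trans h3

end Pool.Agent.CVE
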