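import Mathlib
import Pool.Agent.CVE.Stmts

/-!
# CVE, module GK: the moments are summable over the primes
-/

set_option autoImplicit false

namespace Pool.Agent.CVE

open Finset Pool.Agent.CVD

namespace GKx

theorem hh_nonneg (D : ℕ) : 0 ≤ hh D := by
  unfold hh
  positivity

/-- the sum over the multiples of `D` -/
noncomputable def HH (κ : ℝ) (Q j D : ℕ) : ℝ :=
  ∑ L ∈ Q.divisors.filter (fun L => D ∣ L), hh L * (L.divisors.card : ℝ) ^ j * (L : ℝ) ^ (j * κ)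

theorem HH_nonneg (κ : ℝ) (Q j D : ℕ) : 0 ≤ HH κ Q j D := by
  unfold HH
  refine Finset.sum_nonneg fun L _ => ?_
  have := hh_nonneg L
  positivity

theorem HH_zero (κ : ℝ) (Q D : ℕ) (hQ : 1 ≤ Q) (hD : D ∣ Q) : hh D ≤ HH κ Q 0 D := by
  unfold HH
  have hmem : D ∈ Q.divisors.filter (fun L => D ∣ L) := by
    rw [mem_filter, Nat.mem_divisors]
    exact ⟨⟨hD, by omega⟩, dvd_rfl⟩
  have h := Finset.single_le_sum (f := fun L : ℕ => hh L * (L.divisors.card : ℝ) ^ 0 *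
    (L : ℝ) ^ (((0 : ℕ) : ℝ) * κ)) (fun L _ => by
      have := hh_nonneg L
      positivity) hmem
  refine le_trans (le_of_eq ?_) h
  simp

theorem HH_succ (κ : ℝ) (hκ : 0 ≤ κ) (Q j D : ℕ) (hQ : 1 ≤ Q) :
    ∑ q ∈ Q.divisors, (q : ℝ) ^ κ * HH κ Q j (Nat.lcm D q) ≤ HH κ Q (j + 1) D := by
  classical
  have e1 : ∀ q ∈ Q.divisors, (q : ℝ) ^ κ * HH κ Q j (Nat.lcm D q) =
      ∑ L ∈ Q.divisors.filter (fun L => D ∣ L), if q ∣ L then
        (q : ℝ) ^ κ * (hh L * (L.divisors.card : ℝ) ^ j * (L : ℝ) ^ (j * κ)) else 0 := by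
    intro q _
    unfold HH
    rw [Finset.mul_sum, ← Finset.sum_filter, Finset.filter_filter]
    refine Finset.sum_congr (Finset.filter_congr fun L _ => ?_) fun _ _ => rfl
    exact ⟨fun h => ⟨(Nat.dvd_lcm_left D q).trans h, (Nat.dvd_lcm_right D q).trans h⟩,
      fun h => Nat.lcm_dvd h.1 h.2⟩
  rw [Finset.sum_congr rfl e1, Finset.sum_comm]
  unfold HH
  refine Finset.sum_le_sum fun L hL => ?_
  rw [mem_filter, Nat.mem_divisors] at hL
  have hL0 : 0 < L := Nat.pos_of_dvd_of_pos hL.1.1 hQ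
  have hL0' : (0 : ℝ) < L := by exact_mod_cast hL0
  rw [← Finset.sum_filter]
  have hsub : Q.divisors.filter (fun q => q ∣ L) = L.divisors := by
    ext q
    rw [mem_filter, Nat.mem_divisors, Nat.mem_divisors]
    exact ⟨fun h => ⟨h.2, hL0.ne'⟩, fun h => ⟨⟨h.1.trans hL.1.1, by omega⟩, h.1⟩⟩
  rw [hsub]
  have hX : 0 ≤ hh L * (L.divisors.card : ℝ) ^ j * (L : ℝ) ^ (j * κ) := by
    have := hh_nonneg L
    positivity
  have h1 : ∀ q ∈ L.divisors, (q : ℝ) ^ κ * (hh L * (L.divisors.card : ℝ) ^ j * (L : ℝ) ^ (j * κ)) ≤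
      (L : ℝ) ^ κ * (hh L * (L.divisors.card : ℝ) ^ j * (L : ℝ) ^ (j * κ)) := by
    intro q hq
    refine mul_le_mul_of_nonneg_right ?_ hX
    exact Real.rpow_le_rpow (Nat.cast_nonneg _) (Nat.cast_le.mpr (Nat.divisor_le hq)) hκ
  refine (Finset.sum_le_sum h1).trans ?_
  rw [Finset.sum_const, nsmul_eq_mul]
  have h2 : (L : ℝ) ^ (((j + 1 : ℕ) : ℝ) * κ) = (L : ℝ) ^ (j * κ) * (L : ℝ) ^ κ := by
    rw [← Real.rpow_add hL0']
    congr 1
    push_cast
    ring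
  rw [h2, pow_succ]
  exact le_of_eq (by ring)

end GKx

open GKx in
theorem thm_GK (h1 : St_OneK) (h2 : St_EK) : St_GK := by
  intro ε K k hε hK hkε
  obtain ⟨C, y₀, hC, hE⟩ := h2 k K hK
  refine ⟨(4 * Real.exp K) ^ k * C, max (max 11 ⌈2 * Real.exp K⌉₊) y₀, by positivity, ?_⟩
  intro l Q e J d hl hy hQ hQl hd hM
  have hl11 : 11 ≤ l := ((le_max_left _ _).trans (le_max_left _ _)).trans hy
  have hly : y₀ ≤ l := (le_max_right _ _).trans hy
  have hl2 : 2 * Real.exp K ≤ l :=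
    (Nat.le_ceil _).trans (Nat.cast_le.2 (((le_max_right _ _).trans (le_max_left _ _)).trans hy))
  have hlR : (11 : ℝ) ≤ l := by exact_mod_cast hl11
  have hl0 : (0 : ℝ) < l := by linarith
  have hlog : 0 < Real.log l := Real.log_pos (by linarith)
  obtain ⟨κ, hκ⟩ : ∃ κ : ℝ, κ = K / Real.log l := ⟨_, rfl⟩
  have hκ0 : 0 ≤ κ := by rw [hκ]; positivity
  obtain ⟨E, hEE⟩ : ∃ E : ℝ, E = 4 * Real.exp K * (l : ℝ) ^ (-ε) := ⟨_, rfl⟩
  have hE0 : 0 ≤ E := by rw [hEE]; positivity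
  have hone := fun H hH => h1 ε K l Q e J d H hK hl hl11 hl2 hQ hQl hd hM hH
  rw [← hκ, ← hEE] at hone
  -- the cofactors divide `Q`
  have hco : ∀ i ∈ J, co l (d i) ∣ Q := by
    intro i hi
    obtain ⟨k1, k2⟩ := hd i hi
    have hne : d i ≠ 0 := by
      intro h0
      rw [h0, Nat.zero_dvd] at k1
      have : 0 < Q * l ^ e := Nat.mul_pos hQ (Nat.pow_pos hl.pos)
      omega
    have hdec : l ^ (d i).factorization l * co l (d i) = d i := Nat.ordProj_mul_ordCompl_eq_self _ _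
    have hcop : Nat.Coprime l (co l (d i)) := Nat.coprime_ordCompl hl hne
    have k4 : co l (d i) ∣ Q * l ^ e := (Dvd.intro_left _ hdec).trans k1
    exact (Nat.Coprime.pow_left e hcop).symm.dvd_of_dvd_mul_right k4
  have claim : ∀ j : ℕ, ∀ D : ℕ, D ∣ Q → gk l J d j D ≤ E ^ j * HH κ Q j D := by
    intro j
    induction j with
    | zero =>
      intro D hD
      rw [pow_zero, one_mul]
      exact HH_zero κ Q D hQ hD
    | succ j ih =>
      intro D hD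
      show ∑ i ∈ J, gk l J d j (Nat.lcm D (co l (d i))) / ((pe l (d i)).totient : ℝ) ≤ _
      have s1 : ∑ i ∈ J, gk l J d j (Nat.lcm D (co l (d i))) / ((pe l (d i)).totient : ℝ) ≤
          ∑ i ∈ J, (E ^ j * HH κ Q j (Nat.lcm D (co l (d i)))) / ((pe l (d i)).totient : ℝ) :=
        Finset.sum_le_sum fun i hi => div_le_div_of_nonneg_right
          (ih _ (Nat.lcm_dvd hD (hco i hi))) (Nat.cast_nonneg _)
      have s2 := hone (fun n => E ^ j * HH κ Q j (Nat.lcm D n)) (fun n =>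
        mul_nonneg (pow_nonneg hE0 j) (HH_nonneg _ _ _ _))
      refine s1.trans (s2.trans ?_)
      have s3 : ∑ q ∈ Q.divisors, (q : ℝ) ^ κ * (E ^ j * HH κ Q j (Nat.lcm D q)) =
          E ^ j * ∑ q ∈ Q.divisors, (q : ℝ) ^ κ * HH κ Q j (Nat.lcm D q) := by
        rw [Finset.mul_sum]
        refine Finset.sum_congr rfl fun q _ => ?_
        ring
      rw [s3, pow_succ]
      calc E * (E ^ j * ∑ q ∈ Q.divisors, (q : ℝ) ^ κ * HH κ Q j (Nat.lcm D q)) =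
          E ^ j * E * ∑ q ∈ Q.divisors, (q : ℝ) ^ κ * HH κ Q j (Nat.lcm D q) := by ring
        _ ≤ _ := mul_le_mul_of_nonneg_left (HH_succ κ hκ0 Q j D hQ) (by positivity)
  have h3 := claim k 1 (one_dvd Q)
  have h4 : HH κ Q k 1 = ∑ L ∈ Q.divisors, (L.divisors.card : ℝ) ^ k * (L : ℝ) ^ (k * κ) * hh L := by
    unfold HH
    rw [Finset.filter_true_of_mem fun L _ => one_dvd L]
    refine Finset.sum_congr rfl fun L _ => ?_
    ring
  have h5 := hE l Q hly hQ hQl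
  rw [← hκ] at h5
  rw [h4] at h3
  refine h3.trans ((mul_le_mul_of_nonneg_left h5 (pow_nonneg hE0 k)).trans ?_)
  rw [hEE, mul_pow, le_div_iff₀ (by positivity)]
  have h6 : ((l : ℝ) ^ (-ε)) ^ k * (l : ℝ) ^ (1 / 4 : ℝ) * (l : ℝ) ^ (3 / 2 : ℝ) ≤ 1 := by
    rw [← Real.rpow_natCast, ← Real.rpow_mul hl0.le, ← Real.rpow_add hl0, ← Real.rpow_add hl0]
    refine Real.rpow_le_one_of_one_le_of_nonpos (by linarith) ?_
    nlinarith
  calc (4 * Real.exp K) ^ k * ((l : ℝ) ^ (-ε)) ^ k * (C * (l : ℝ) ^ (1 / 4 : ℝ)) *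
      (l : ℝ) ^ (3 / 2 : ℝ) = (4 * Real.exp K) ^ k * C *
        (((l : ℝ) ^ (-ε)) ^ k * (l : ℝ) ^ (1 / 4 : ℝ) * (l : ℝ) ^ (3 / 2 : ℝ)) := by ring
    _ ≤ (4 * Real.exp K) ^ k * C * 1 := mul_le_mul_of_nonneg_left h6 (by positivity)
    _ = _ := mul_one _

end Pool.Agent.CVE
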