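import Mathlib
import Pool.Agent.CVE.Stmts
import Pool.Agent.CVD.Mom

set_option autoImplicit false

/-!
# CVE / MomK: the `k`-th moment for a union of residue classes (adapted from `CVD/Mom.lean`, helper13)
-/

namespace Pool.Agent.CVE

open Finset Pool.Agent.CVD Pool.Agent.CVD.MomAux

theorem gk_nonneg (l : ℕ) (J : Finset ℕ) (d : ℕ → ℕ) (k D : ℕ) : 0 ≤ gk l J d k D := by
  induction k generalizing D with
  | zero => exact hh_nonneg D
  | succ k ih =>
    show 0 ≤ ∑ i ∈ J, gk l J d k (Nat.lcm D (co l (d i))) / ((pe l (d i)).totient : ℝ)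
    exact Finset.sum_nonneg fun i _ => div_nonneg (ih _) (Nat.cast_nonneg _)

theorem thm_MomK : St_MomK := by
  classical
  intro R ρ t l Q e w J d c hl hQ hQl he hw hd k
  have hl0 : 0 < l := hl.pos
  have hl1 : (1 : ℝ) < l := by exact_mod_cast hl.one_lt
  have hlR : (0 : ℝ) < l := by exact_mod_cast hl0
  have hl1' : (0 : ℝ) < (l : ℝ) - 1 := by linarith
  set q : ℕ → ℕ := fun i => co l (d i) with hq
  set a : ℕ → ℕ := fun i => (d i).factorization l with ha
  -- arithmetic of the moduli
  have hdi0 : ∀ i ∈ J, d i ≠ 0 := by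
    intro i hi h0
    have h := (hd i hi).1
    rw [h0, zero_dvd_iff] at h
    rcases Nat.mul_eq_zero.1 h with h | h
    · omega
    · exact absurd h (pow_pos hl0 e).ne'
  have hdec : ∀ i ∈ J, l ^ a i * q i = d i := by
    intro i _
    exact Nat.ordProj_mul_ordCompl_eq_self (d i) l
  have hqc : ∀ i ∈ J, l.Coprime (q i) := by
    intro i hi
    exact Nat.coprime_ordCompl hl (hdi0 i hi)
  have hqQ : ∀ i ∈ J, q i ∣ Q := by
    intro i hi
    have h1 : q i ∣ Q * l ^ e := (Dvd.intro_left _ (hdec i hi)).trans (hd i hi).1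
    exact Nat.Coprime.dvd_of_dvd_mul_right (Nat.Coprime.pow_right e (hqc i hi).symm) h1
  have ha1 : ∀ i ∈ J, 1 ≤ a i := by
    intro i hi
    by_contra h
    have h0 : a i = 0 := by omega
    have h1 := hdec i hi
    rw [h0, pow_zero, one_mul] at h1
    exact (hd i hi).2 (h1 ▸ hqQ i hi)
  have hae : ∀ i ∈ J, a i ≤ e := by
    intro i hi
    have h1 : l ^ a i ∣ Q * l ^ e := (Dvd.intro _ (hdec i hi)).trans (hd i hi).1
    have h2 : l ^ a i ∣ l ^ e :=
      Nat.Coprime.dvd_of_dvd_mul_left (Nat.Coprime.pow_left _ hQl.symm) h1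
    exact (Nat.pow_dvd_pow_iff_le_right hl.one_lt).1 h2
  have htot : ∀ i ∈ J, ((pe l (d i)).totient : ℝ) = (l : ℝ) ^ (a i - 1) * ((l : ℝ) - 1) := by
    intro i hi
    have h : (pe l (d i)).totient = l ^ (a i - 1) * (l - 1) :=
      Nat.totient_prime_pow hl (ha1 i hi)
    rw [h]
    push_cast [Nat.cast_sub hl.one_lt.le]
    ring
  have htpos : ∀ i ∈ J, (0 : ℝ) < ((pe l (d i)).totient : ℝ) := by
    intro i hi
    rw [htot i hi]; positivity
  -- the pointwise bound
  set I : ℕ → ℕ → ℝ := fun i x => if x % q i = c i % q i then 1 else 0 with hI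
  have hI0 : ∀ i x, 0 ≤ I i x := by
    intro i x; simp only [hI]; split_ifs <;> norm_num
  have hden : (0 : ℝ) < (l : ℝ) ^ (e - 1) * ((l : ℝ) - 1) := by positivity
  have hone : ∀ x, ∀ i ∈ J,
      ((((range (l ^ e)).filter (fun k => (x + Q * k) % d i = c i)).card : ℝ) /
        ((l : ℝ) ^ (e - 1) * ((l : ℝ) - 1))) ≤ I i x / ((pe l (d i)).totient : ℝ) := by
    intro x i hi
    by_cases hx : x % q i = c i % q i
    · have hsub : (range (l ^ e)).filter (fun k => (x + Q * k) % d i = c i) ⊆
          (range (l ^ e)).filter (fun k => (x + Q * k) % l ^ a i = c i % l ^ a i) := by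
        intro k hk
        rw [mem_filter] at hk ⊢
        refine ⟨hk.1, ?_⟩
        rw [← hk.2, Nat.mod_mod_of_dvd _ (Dvd.intro _ (hdec i hi))]
      have hc := (card_le_card hsub).trans (cnt l Q e (a i) x (c i % l ^ a i) hl0 hQl (hae i hi))
      have hc' : ((((range (l ^ e)).filter (fun k => (x + Q * k) % d i = c i)).card : ℕ) : ℝ) ≤
          (l : ℝ) ^ (e - a i) := by exact_mod_cast hc
      have hIx : I i x = 1 := by simp only [hI]; rw [if_pos hx]
      rw [hIx, htot i hi, div_le_div_iff₀ hden (by positivity)]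
      have h1 : (l : ℝ) ^ (e - a i) * (l : ℝ) ^ (a i - 1) = (l : ℝ) ^ (e - 1) := by
        rw [← pow_add]; congr 1
        have := ha1 i hi
        have := hae i hi
        omega
      calc _ ≤ (l : ℝ) ^ (e - a i) * ((l : ℝ) ^ (a i - 1) * ((l : ℝ) - 1)) := by gcongr
        _ = 1 * ((l : ℝ) ^ (e - 1) * ((l : ℝ) - 1)) := by rw [← mul_assoc, h1, one_mul]
    · have hemp : (range (l ^ e)).filter (fun k => (x + Q * k) % d i = c i) = ∅ := by
        rw [filter_eq_empty_iff]
        intro k _ hk
        apply hx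
        have h1 : (x + Q * k) % q i = c i % q i := by
          rw [← hk, Nat.mod_mod_of_dvd _ (Dvd.intro_left _ (hdec i hi))]
        rw [← h1, Nat.add_mod, Nat.mod_eq_zero_of_dvd ((hqQ i hi).mul_right k), add_zero,
          Nat.mod_mod]
      have hIx : I i x = 0 := by simp only [hI]; rw [if_neg hx]
      rw [hemp, hIx]
      simp
  have hpt : ∀ x, (((range (l ^ e)).filter (fun k => ∃ i ∈ J, (x + Q * k) % d i = c i)).card : ℝ) /
      ((l : ℝ) ^ (e - 1) * ((l : ℝ) - 1)) ≤ ∑ i ∈ J, I i x / ((pe l (d i)).totient : ℝ) := by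
    intro x
    have hsub : (range (l ^ e)).filter (fun k => ∃ i ∈ J, (x + Q * k) % d i = c i) ⊆
        J.biUnion (fun i => (range (l ^ e)).filter (fun k => (x + Q * k) % d i = c i)) := by
      intro k hk
      rw [mem_filter] at hk
      obtain ⟨hk1, i, hi, hk2⟩ := hk
      rw [mem_biUnion]
      exact ⟨i, hi, mem_filter.2 ⟨hk1, hk2⟩⟩
    have h1 := (card_le_card hsub).trans card_biUnion_le
    have h2 : ((((range (l ^ e)).filter (fun k => ∃ i ∈ J, (x + Q * k) % d i = c i)).card : ℕ) : ℝ)
        ≤ ∑ i ∈ J, (((range (l ^ e)).filter (fun k => (x + Q * k) % d i = c i)).card : ℝ) := by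
      exact_mod_cast h1
    calc _ ≤ (∑ i ∈ J, (((range (l ^ e)).filter (fun k => (x + Q * k) % d i = c i)).card : ℝ)) /
          ((l : ℝ) ^ (e - 1) * ((l : ℝ) - 1)) := by gcongr
      _ = ∑ i ∈ J, (((range (l ^ e)).filter (fun k => (x + Q * k) % d i = c i)).card : ℝ) /
          ((l : ℝ) ^ (e - 1) * ((l : ℝ) - 1)) := by rw [sum_div]
      _ ≤ _ := sum_le_sum (fun i hi => hone x i hi)
  -- the claim
  have key : ∀ k : ℕ, ∀ D : ℕ, D ∣ Q → ∀ x₀ : ℕ,
      ∑ x ∈ (range Q).filter (fun x => x % D = x₀ % D),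
        w x * (∑ i ∈ J, I i x / ((pe l (d i)).totient : ℝ)) ^ k ≤ gk l J d k D := by
    intro k
    induction k with
    | zero =>
      intro D hD x₀
      have h := hw.bound D x₀ hD
      unfold cls at h
      simp only [pow_zero, mul_one]
      exact h
    | succ k ih =>
      intro D hD x₀
      have e1 : ∑ x ∈ (range Q).filter (fun x => x % D = x₀ % D),
          w x * (∑ i ∈ J, I i x / ((pe l (d i)).totient : ℝ)) ^ (k + 1) =
          ∑ i ∈ J, (∑ x ∈ (range Q).filter (fun x => x % D = x₀ % D),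
            I i x * (w x * (∑ i ∈ J, I i x / ((pe l (d i)).totient : ℝ)) ^ k)) /
              ((pe l (d i)).totient : ℝ) := by
        have e2 : ∀ x ∈ (range Q).filter (fun x => x % D = x₀ % D),
            w x * (∑ i ∈ J, I i x / ((pe l (d i)).totient : ℝ)) ^ (k + 1) =
            ∑ i ∈ J, (I i x * (w x * (∑ i ∈ J, I i x / ((pe l (d i)).totient : ℝ)) ^ k)) /
              ((pe l (d i)).totient : ℝ) := by
          intro x _
          rw [pow_succ, ← mul_assoc, Finset.mul_sum]
          refine Finset.sum_congr rfl fun i _ => ?_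
          ring
        rw [Finset.sum_congr rfl e2, Finset.sum_comm]
        refine Finset.sum_congr rfl fun i _ => ?_
        rw [Finset.sum_div]
      rw [e1]
      show _ ≤ ∑ i ∈ J, gk l J d k (Nat.lcm D (co l (d i))) / ((pe l (d i)).totient : ℝ)
      refine Finset.sum_le_sum fun i hi => ?_
      refine div_le_div_of_nonneg_right ?_ (htpos i hi).le
      have hs0 : ∀ x, 0 ≤ w x * (∑ i ∈ J, I i x / ((pe l (d i)).totient : ℝ)) ^ k := fun x =>
        mul_nonneg (hw.nonneg x) (pow_nonneg (Finset.sum_nonneg fun i hi =>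
          div_nonneg (hI0 i x) (htpos i hi).le) k)
      by_cases hex : ∃ x₁, x₁ % D = x₀ % D ∧ x₁ % q i = c i % q i
      · obtain ⟨x₁, h1, h2⟩ := hex
        refine le_trans ?_ (ih (Nat.lcm D (q i)) (Nat.lcm_dvd hD (hqQ i hi)) x₁)
        have e3 : ∑ x ∈ (range Q).filter (fun x => x % D = x₀ % D),
            I i x * (w x * (∑ i ∈ J, I i x / ((pe l (d i)).totient : ℝ)) ^ k) =
            ∑ x ∈ ((range Q).filter (fun x => x % D = x₀ % D)).filter
              (fun x => x % q i = c i % q i),
              (w x * (∑ i ∈ J, I i x / ((pe l (d i)).totient : ℝ)) ^ k) := by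
          rw [Finset.sum_filter (fun x => x % q i = c i % q i)]
          refine Finset.sum_congr rfl fun x _ => ?_
          by_cases hx : x % q i = c i % q i
          · have : I i x = 1 := by simp only [hI]; rw [if_pos hx]
            rw [this, one_mul, if_pos hx]
          · have : I i x = 0 := by simp only [hI]; rw [if_neg hx]
            rw [this, zero_mul, if_neg hx]
        rw [e3]
        refine Finset.sum_le_sum_of_subset_of_nonneg ?_ fun x _ _ => hs0 x
        intro x hx
        rw [mem_filter, mem_filter] at hx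
        rw [mem_filter]
        refine ⟨hx.1.1, ?_⟩
        have k1 : x₁ ≡ x [MOD D] := by unfold Nat.ModEq; rw [h1, hx.1.2]
        have k2 : x₁ ≡ x [MOD q i] := by unfold Nat.ModEq; rw [h2, hx.2]
        have k3 : x₁ ≡ x [MOD Nat.lcm D (q i)] := by
          rw [Nat.modEq_iff_dvd] at k1 k2 ⊢
          exact Int.natCast_dvd.2 (Nat.lcm_dvd (Int.natCast_dvd.1 k1) (Int.natCast_dvd.1 k2))
        exact k3.symm
      · refine le_trans (le_of_eq ?_) (gk_nonneg l J d k _)
        refine Finset.sum_eq_zero fun x hx => ?_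
        rw [mem_filter] at hx
        have : I i x = 0 := by
          simp only [hI]
          rw [if_neg fun h => hex ⟨x, hx.2, h⟩]
        rw [this, zero_mul]
  have hfin := key k 1 (one_dvd Q) 0
  have hall : (range Q).filter (fun x => x % 1 = 0 % 1) = range Q := by
    rw [Finset.filter_true_of_mem]
    intro x _
    rw [Nat.mod_one, Nat.mod_one]
  rw [hall] at hfin
  refine le_trans (Finset.sum_le_sum fun x _ => mul_le_mul_of_nonneg_left ?_ (hw.nonneg x)) hfin
  exact pow_le_pow_left₀ (div_nonneg (Nat.cast_nonneg _) hden.le) (hpt x) k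

end Pool.Agent.CVE
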