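import Mathlib
import Pool.Agent.CVE.Stmts

/-!
# CVE, module OneK: the sum over one variable (adapted from `CVD/G.lean`, helper67)
-/

set_option autoImplicit false

namespace Pool.Agent.CVE

open Finset Pool.Agent.CVD

private lemma G_geom (r : ℝ) (h0 : 0 ≤ r) (h1 : r ≤ 1 / 2) (e : ℕ) :
    ∑ a ∈ Icc 1 e, r ^ a ≤ 2 * r - 2 * r * (1 / 2) ^ e := by
  induction e with
  | zero => simp
  | succ e ih =>
    rw [Finset.sum_Icc_succ_top (by omega)]
    have h2 : r ^ (e + 1) ≤ r * (1 / 2) ^ e := by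
      rw [pow_succ, mul_comm]
      exact mul_le_mul_of_nonneg_left (pow_le_pow_left₀ h0 h1 e) h0
    rw [pow_succ (1 / 2 : ℝ)]
    linarith

private lemma G_phi (l a : ℕ) (hl : l.Prime) (ha : 1 ≤ a) :
    (l : ℝ) ^ a / 2 ≤ ((l ^ a).totient : ℝ) := by
  rw [Nat.totient_prime_pow hl (by omega)]
  obtain ⟨b, rfl⟩ : ∃ b, a = b + 1 := ⟨a - 1, by omega⟩
  have h1 : 2 ≤ l := hl.two_le
  have h2 : (2 : ℝ) ≤ l := by exact_mod_cast h1
  rw [Nat.add_sub_cancel, Nat.cast_mul, Nat.cast_pow, Nat.cast_sub (by omega), Nat.cast_one,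
    pow_succ]
  have h3 : (0 : ℝ) ≤ (l : ℝ) ^ b := by positivity
  nlinarith

theorem thm_OneK : St_OneK := by
  classical
  intro ε K l Q e J d H hK hl hl11 hl2 hQ hQl hd hM hH
  have hl1 : 2 ≤ l := hl.two_le
  have hlR : (2 : ℝ) ≤ l := by exact_mod_cast hl1
  have hl0 : (0 : ℝ) < l := by linarith
  have hlog : 0 < Real.log l := Real.log_pos (by linarith)
  have hQl' : Nat.Coprime l Q := by
    rw [Nat.Prime.coprime_iff_not_dvd hl]
    intro h
    exact lt_irrefl _ (hQl l hl h)
  -- the index set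
  have hmaps : ∀ i ∈ J, (co l (d i), (d i).factorization l) ∈ Q.divisors ×ˢ Icc 1 e := by
    intro i hi
    obtain ⟨k1, k2⟩ := hd i hi
    have hne : d i ≠ 0 := by
      intro h0
      rw [h0, Nat.zero_dvd] at k1
      have : 0 < Q * l ^ e := Nat.mul_pos hQ (Nat.pow_pos hl.pos)
      omega
    have hdec : l ^ (d i).factorization l * co l (d i) = d i := Nat.ordProj_mul_ordCompl_eq_self _ _
    have hcop : Nat.Coprime l (co l (d i)) := Nat.coprime_ordCompl hl hne
    have k3 : co l (d i) ∣ Q := by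
      have k4 : co l (d i) ∣ Q * l ^ e := (Dvd.intro_left _ hdec).trans k1
      exact (Nat.Coprime.pow_left e hcop).symm.dvd_of_dvd_mul_right k4
    have k5 : l ^ (d i).factorization l ∣ l ^ e := by
      have k6 : l ^ (d i).factorization l ∣ Q * l ^ e := (Dvd.intro _ hdec).trans k1
      exact (Nat.Coprime.pow_left _ hQl').dvd_of_dvd_mul_left k6
    rw [Finset.mem_product, Nat.mem_divisors, Finset.mem_Icc]
    refine ⟨⟨k3, by omega⟩, ?_, ?_⟩
    · by_contra h0
      apply k2
      have k7 : (d i).factorization l = 0 := by omega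
      rw [k7, pow_zero, one_mul] at hdec
      rw [← hdec]
      exact k3
    · exact (Nat.pow_dvd_pow_iff_le_right hl1).1 k5
  rw [← Finset.sum_fiberwise_of_maps_to hmaps]
  have hfib : ∀ z ∈ Q.divisors ×ˢ Icc 1 e,
      ∑ i ∈ J with (co l (d i), (d i).factorization l) = z,
        H (co l (d i)) / ((pe l (d i)).totient : ℝ) ≤
      (l : ℝ) ^ (1 - ε) * (((z.1 : ℝ) ^ (K / Real.log l) * H z.1) *
        (2 * (Real.exp K / l) ^ z.2)) := by
    rintro ⟨q, a⟩ hz
    rw [Finset.mem_product, Nat.mem_divisors, Finset.mem_Icc] at hz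
    obtain ⟨⟨hq1, -⟩, ha1, ha2⟩ := hz
    have hq0 : 1 ≤ q := Nat.pos_of_dvd_of_pos hq1 hQ
    have hphi := G_phi l a hl ha1
    have hphi0 : (0 : ℝ) < ((l ^ a).totient : ℝ) := lt_of_lt_of_le (by positivity) hphi
    have k1 : ∑ i ∈ J with (co l (d i), (d i).factorization l) = (q, a),
        H (co l (d i)) / ((pe l (d i)).totient : ℝ) =
        ((J.filter fun i => (co l (d i), (d i).factorization l) = (q, a)).card : ℝ) *
          (H q / ((l ^ a).totient : ℝ)) := by
      rw [← nsmul_eq_mul, ← Finset.sum_const]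
      refine Finset.sum_congr rfl fun i hi => ?_
      have k2 := (Finset.mem_filter.1 hi).2
      rw [Prod.mk.injEq] at k2
      rw [pe, k2.1, k2.2]
    have hla : l ∣ l ^ a * q := Dvd.dvd.mul_right (dvd_pow_self l (by omega)) q
    have hmax : ∀ p : ℕ, p.Prime → p ∣ l ^ a * q → p ≤ l := by
      intro p hp hpd
      rcases hp.dvd_mul.mp hpd with h | h
      · exact Nat.le_of_dvd hl.pos (hp.dvd_of_dvd_pow h)
      · exact (hQl p hp (h.trans hq1)).le
    have k2 : ((J.filter fun i => (co l (d i), (d i).factorization l) = (q, a)).card : ℝ) ≤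
        (l : ℝ) ^ (1 - ε) * Real.exp (K * (Real.log ((l ^ a * q : ℕ) : ℝ) / Real.log l)) := by
      refine le_trans ?_ (hM.2 (l ^ a * q) l hl hl11 hla hmax)
      refine Nat.cast_le.2 (Finset.card_le_card ?_)
      intro i hi
      rw [Finset.mem_filter] at hi ⊢
      refine ⟨hi.1, ?_⟩
      have k3 := hi.2
      rw [Prod.mk.injEq] at k3
      rw [← k3.1, ← k3.2]
      exact (Nat.ordProj_mul_ordCompl_eq_self _ _).symm
    have hq0' : (0 : ℝ) < q := by exact_mod_cast hq0
    have k4 : Real.exp (K * (Real.log ((l ^ a * q : ℕ) : ℝ) / Real.log l)) =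
        Real.exp K ^ a * (q : ℝ) ^ (K / Real.log l) := by
      rw [Nat.cast_mul, Nat.cast_pow, Real.log_mul (by positivity) hq0'.ne', Real.log_pow,
        Real.rpow_def_of_pos hq0', ← Real.exp_nat_mul, ← Real.exp_add]
      congr 1
      field_simp
    rw [k1]
    have hHq := hH q
    have k5 : H q / ((l ^ a).totient : ℝ) ≤ H q * (2 / (l : ℝ) ^ a) := by
      rw [div_eq_mul_inv]
      refine mul_le_mul_of_nonneg_left ?_ hHq
      rw [inv_eq_one_div, div_le_div_iff₀ hphi0 (by positivity)]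
      linarith
    have k6 : (0 : ℝ) ≤ H q / ((l ^ a).totient : ℝ) := div_nonneg hHq hphi0.le
    calc ((J.filter fun i => (co l (d i), (d i).factorization l) = (q, a)).card : ℝ) *
          (H q / ((l ^ a).totient : ℝ)) ≤
          ((l : ℝ) ^ (1 - ε) * (Real.exp K ^ a * (q : ℝ) ^ (K / Real.log l))) *
          (H q * (2 / (l : ℝ) ^ a)) := by
          refine mul_le_mul ?_ k5 k6 (by positivity)
          rw [← k4]
          exact k2
      _ = (l : ℝ) ^ (1 - ε) * (((q : ℝ) ^ (K / Real.log l) * H q) *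
        (2 * (Real.exp K / l) ^ a)) := by
          rw [div_pow]
          ring
  refine (Finset.sum_le_sum hfib).trans ?_
  rw [← Finset.mul_sum, Finset.sum_product]
  have e0 : 4 * Real.exp K * (l : ℝ) ^ (-ε) = (l : ℝ) ^ (1 - ε) * (4 * Real.exp K / l) := by
    rw [show (1 - ε : ℝ) = 1 + -ε by ring, Real.rpow_add hl0, Real.rpow_one]
    field_simp
  rw [e0, mul_assoc]
  refine mul_le_mul_of_nonneg_left ?_ (by positivity)
  have k7 : ∀ q ∈ Q.divisors, ∑ a ∈ Icc 1 e, ((q : ℝ) ^ (K / Real.log l) * H q) *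
      (2 * (Real.exp K / l) ^ a) ≤ (4 * Real.exp K / l) * ((q : ℝ) ^ (K / Real.log l) * H q) := by
    intro q _
    have hHq := hH q
    rw [← Finset.mul_sum, ← Finset.mul_sum]
    have k8 := G_geom (Real.exp K / l) (by positivity)
      (by rw [div_le_div_iff₀ hl0 (by norm_num)]; linarith) e
    have k9 : (0 : ℝ) ≤ 2 * (Real.exp K / l) * (1 / 2) ^ e := by positivity
    have k10 : (0 : ℝ) ≤ (q : ℝ) ^ (K / Real.log l) * H q := by positivity
    have k11 : 2 * ∑ a ∈ Icc 1 e, (Real.exp K / l) ^ a ≤ 4 * Real.exp K / l := by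
      have : 4 * Real.exp K / l = 2 * (2 * (Real.exp K / l)) := by ring
      rw [this]
      linarith
    rw [mul_comm (4 * Real.exp K / (l : ℝ))]
    exact mul_le_mul_of_nonneg_left k11 k10
  refine (Finset.sum_le_sum k7).trans ?_
  rw [Finset.mul_sum]

end Pool.Agent.CVE
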