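import Mathlib
import Pool.Agent.CVE.Stmts
import Pool.Agent.CVD.G3

/-!
# CVE [TK]: the first stage of the covering lemma (adapted from `CVD/T.lean`, helper25)
-/

set_option autoImplicit false

namespace Pool.Agent.CVE

open Finset Pool.Agent.CVD

namespace TKx

/-- the multiplicative function `D^s 2^ω(D) / φ(D)` -/
noncomputable def ff (s : ℝ) (n : ℕ) : ℝ := (n : ℝ) ^ s * hh n

lemma ff_nonneg (s : ℝ) (n : ℕ) : 0 ≤ ff s n :=
  mul_nonneg (Real.rpow_nonneg (Nat.cast_nonneg n) _) (G3x.hh_nonneg n)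

lemma ff_one (s : ℝ) : ff s 1 = 1 := by
  unfold ff
  rw [G3x.hh_one]
  simp

lemma ff_mul (s : ℝ) (a b : ℕ) (hab : a.Coprime b) : ff s (a * b) = ff s a * ff s b := by
  unfold ff
  rw [G3x.hh_mul hab, Nat.cast_mul, Real.mul_rpow (Nat.cast_nonneg a) (Nat.cast_nonneg b)]
  ring

lemma ff_pow {ε : ℝ} (hε : 0 < ε) {p : ℕ} (hp : p.Prime) {k : ℕ} (hk : 1 ≤ k) :
    ff (1 - ε) (p ^ k) ≤ 4 * ((2 : ℝ) ^ (-ε)) ^ k := by
  have hp2 : (2 : ℝ) ≤ p := by exact_mod_cast hp.two_le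
  have hp0 : (0 : ℝ) < p := by linarith
  have h1 := G3x.hh_pow hp hk
  unfold ff
  have h2 : ((p ^ k : ℕ) : ℝ) ^ (1 - ε) = (p : ℝ) ^ k * ((p : ℝ) ^ (-ε)) ^ k := by
    rw [Nat.cast_pow, show (1 - ε : ℝ) = 1 + -ε by ring, Real.rpow_add (by positivity),
      Real.rpow_one, ← Real.rpow_natCast (p : ℝ) k, ← Real.rpow_mul hp0.le, mul_comm (k : ℝ) (-ε),
      Real.rpow_mul hp0.le, Real.rpow_natCast, Real.rpow_natCast]
  rw [h2]
  have h3 : (p : ℝ) ^ (-ε) ≤ (2 : ℝ) ^ (-ε) :=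
    Real.rpow_le_rpow_of_nonpos (by norm_num) hp2 (by linarith)
  have h4 : (0 : ℝ) ≤ (p : ℝ) ^ (-ε) := Real.rpow_nonneg hp0.le _
  have h5 : ((p : ℝ) ^ (-ε)) ^ k ≤ ((2 : ℝ) ^ (-ε)) ^ k := pow_le_pow_left₀ h4 h3 k
  calc (p : ℝ) ^ k * ((p : ℝ) ^ (-ε)) ^ k * hh (p ^ k) ≤
      (p : ℝ) ^ k * ((p : ℝ) ^ (-ε)) ^ k * (4 / (p : ℝ) ^ k) :=
        mul_le_mul_of_nonneg_left h1 (by positivity)
    _ = 4 * ((p : ℝ) ^ (-ε)) ^ k := by field_simp
    _ ≤ _ := by linarith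

lemma geo (ρ : ℝ) (h0 : 0 ≤ ρ) (h1 : ρ < 1) (v : ℕ) :
    ∑ k ∈ Icc 1 v, 4 * ρ ^ k ≤ 4 / (1 - ρ) := by
  have h2 : ∑ k ∈ Icc 1 v, 4 * ρ ^ k = 4 * (ρ - ρ ^ (v + 1)) / (1 - ρ) := by
    have h3 : (1 - ρ) ≠ 0 := by linarith
    induction v with
    | zero => simp
    | succ v ih =>
      rw [Finset.sum_Icc_succ_top (by omega), ih]
      field_simp
      ring
  rw [h2]
  apply div_le_div_of_nonneg_right _ (by linarith)
  have : 0 ≤ ρ ^ (v + 1) := pow_nonneg h0 _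
  linarith

end TKx

open TKx in
theorem thm_TK (h0 : St_Eul) : St_TK := by
  intro ε K y hε hε1 hK
  obtain ⟨ρ, hρ⟩ : ∃ ρ : ℝ, ρ = (2 : ℝ) ^ (-(ε / 2)) := ⟨_, rfl⟩
  have hρ0 : 0 ≤ ρ := by rw [hρ]; positivity
  have hρ1 : ρ < 1 := by
    rw [hρ]
    exact Real.rpow_lt_one_of_one_lt_of_neg (by norm_num) (by linarith)
  obtain ⟨b, hb⟩ : ∃ b : ℝ, b = 4 / (1 - ρ) := ⟨_, rfl⟩
  have hb0 : 0 < b := by
    rw [hb]
    exact div_pos (by norm_num) (by linarith)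
  obtain ⟨A, hA⟩ : ∃ A : ℝ, A = 4 * (K + 1) * (1 + b) ^ y := ⟨_, rfl⟩
  have hA0 : 0 < A := by rw [hA]; positivity
  refine ⟨⌈A ^ (2 / ε)⌉₊ + 1, by omega, ?_⟩
  intro Q J d hQ hpr hd hM
  obtain ⟨Z, hZ⟩ : ∃ Z : ℕ, Z = ⌈A ^ (2 / ε)⌉₊ + 1 := ⟨_, rfl⟩
  rw [← hZ] at hd
  have hZ1 : 1 ≤ Z := by omega
  have hZA : A ≤ (Z : ℝ) ^ (ε / 2) := by
    have h1 : A ^ (2 / ε) ≤ (Z : ℝ) := by
      rw [hZ, Nat.cast_add, Nat.cast_one]
      linarith [Nat.le_ceil (A ^ (2 / ε))]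
    have h2 : (A ^ (2 / ε)) ^ (ε / 2) ≤ (Z : ℝ) ^ (ε / 2) :=
      Real.rpow_le_rpow (by positivity) h1 (by linarith)
    have h3 : (A ^ (2 / ε)) ^ (ε / 2) = A := by
      rw [← Real.rpow_mul hA0.le]
      have : (2 / ε) * (ε / 2) = 1 := by field_simp
      rw [this, Real.rpow_one]
    rw [h3] at h2
    exact h2
  -- the Euler product
  have hE : ∑ L ∈ Q.divisors, ff (1 - ε / 2) L ≤ ∏ p ∈ Q.primeFactors, (1 + b) := by
    apply h0 (ff (1 - ε / 2)) (fun _ => b) (ff_nonneg _) (ff_one _) (ff_mul _) Q hQ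
    intro p hp
    have hpp := (Nat.mem_primeFactors.1 hp).1
    calc ∑ k ∈ Icc 1 (Q.factorization p), ff (1 - ε / 2) (p ^ k)
        ≤ ∑ k ∈ Icc 1 (Q.factorization p), 4 * ρ ^ k :=
          Finset.sum_le_sum fun k hk => by
            have h := ff_pow (ε := ε / 2) (by linarith) hpp (Finset.mem_Icc.1 hk).1
            rw [← hρ] at h
            exact h
      _ ≤ b := by
          rw [hb]
          exact geo ρ hρ0 hρ1 _
  have hcard : Q.primeFactors.card ≤ y := by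
    have h1 : Q.primeFactors ⊆ range y := by
      intro p hp
      obtain ⟨h2, h3, -⟩ := Nat.mem_primeFactors.1 hp
      exact Finset.mem_range.2 (hpr p h2 h3)
    have h2 := Finset.card_le_card h1
    rw [Finset.card_range] at h2
    exact h2
  have hE7 : ∑ L ∈ Q.divisors, ff (1 - ε / 2) L ≤ (1 + b) ^ y := by
    refine hE.trans ?_
    rw [Finset.prod_const]
    exact pow_le_pow_right₀ (by linarith) hcard
  -- grouping
  rw [Finset.sum_comp hh d]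
  have h1 : ∀ D ∈ J.image d, (J.filter (fun i => d i = D)).card • hh D ≤
      (K / A) * ff (1 - ε / 2) D := by
    intro D hD
    obtain ⟨i, hi, rfl⟩ := Finset.mem_image.1 hD
    obtain ⟨hdZ, -⟩ := hd i hi
    have hd1 : 1 ≤ d i := hZ1.trans hdZ
    have hd0 : (0 : ℝ) < d i := by exact_mod_cast hd1
    rw [nsmul_eq_mul]
    have h2 := hM.1 (d i)
    have h4 : A ≤ ((d i : ℕ) : ℝ) ^ (ε / 2) :=
      hZA.trans (Real.rpow_le_rpow (Nat.cast_nonneg _) (by exact_mod_cast hdZ) (by linarith))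
    have h5 : ((d i : ℕ) : ℝ) ^ (1 - ε / 2) =
        ((d i : ℕ) : ℝ) ^ (1 - ε) * ((d i : ℕ) : ℝ) ^ (ε / 2) := by
      rw [← Real.rpow_add hd0]
      congr 1
      ring
    have h3 : (0 : ℝ) ≤ ((d i : ℕ) : ℝ) ^ (1 - ε) := Real.rpow_nonneg (Nat.cast_nonneg _) _
    have h6 : ((d i : ℕ) : ℝ) ^ (1 - ε) ≤ ((d i : ℕ) : ℝ) ^ (1 - ε / 2) / A := by
      rw [le_div_iff₀ hA0, h5]
      exact mul_le_mul_of_nonneg_left h4 h3
    unfold ff
    calc ((J.filter (fun i' => d i' = d i)).card : ℝ) * hh (d i)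
        ≤ (K * ((d i : ℕ) : ℝ) ^ (1 - ε)) * hh (d i) :=
          mul_le_mul_of_nonneg_right h2 (G3x.hh_nonneg _)
      _ ≤ (K * (((d i : ℕ) : ℝ) ^ (1 - ε / 2) / A)) * hh (d i) :=
          mul_le_mul_of_nonneg_right (mul_le_mul_of_nonneg_left h6 hK) (G3x.hh_nonneg _)
      _ = (K / A) * (((d i : ℕ) : ℝ) ^ (1 - ε / 2) * hh (d i)) := by
          ring
  have h2 : J.image d ⊆ Q.divisors := by
    intro D hD
    obtain ⟨i, hi, rfl⟩ := Finset.mem_image.1 hD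
    exact Nat.mem_divisors.2 ⟨(hd i hi).2, by omega⟩
  have h3 : ∑ D ∈ J.image d, ff (1 - ε / 2) D ≤ (1 + b) ^ y :=
    (Finset.sum_le_sum_of_subset_of_nonneg h2 fun n _ _ => ff_nonneg _ n).trans hE7
  calc ∑ D ∈ J.image d, (J.filter (fun i => d i = D)).card • hh D
      ≤ ∑ D ∈ J.image d, (K / A) * ff (1 - ε / 2) D := Finset.sum_le_sum h1
    _ = (K / A) * ∑ D ∈ J.image d, ff (1 - ε / 2) D := by rw [Finset.mul_sum]
    _ ≤ (K / A) * (1 + b) ^ y :=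
        mul_le_mul_of_nonneg_left h3 (by positivity)
    _ ≤ 1 / 4 := by
        rw [div_mul_eq_mul_div, div_le_iff₀ hA0, hA]
        have : 0 < (1 + b) ^ y := by positivity
        nlinarith

end Pool.Agent.CVE
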