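import Mathlib
import Pool.Agent.CVE.Stmts
import Pool.Agent.CVD.U

set_option autoImplicit false

/-!
# CVE / UK: the theorem on rank multiplicities, strong form, from the covering lemma
-/

namespace Pool.Agent.CVE

open Finset Pool.Agent.CVD

/-- the condition on `n` -/
def Cond (K : ℕ) (ε : ℝ) (n : ℕ) : Prop :=
  ∀ d q : ℕ, q.Prime → q ∣ d → (∀ p : ℕ, p.Prime → p ∣ d → p ≤ q) →
    ((n.primeFactors.filter (fun p => rank p = d)).card : ℝ) ≤ K * (d : ℝ) ^ (1 - ε) ∧
    ((n.primeFactors.filter (fun p => rank p = d)).card : ℝ) ≤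
      (q : ℝ) ^ (1 - ε) * Real.exp (K * (Real.log d / Real.log q))

theorem Cond_mono (K : ℕ) (ε ε' : ℝ) (h : ε' ≤ ε) (n : ℕ) (hn : Cond K ε n) : Cond K ε' n := by
  intro d q hq hqd hmax
  obtain ⟨h1, h2⟩ := hn d q hq hqd hmax
  rcases Nat.eq_zero_or_pos d with rfl | hd
  · exfalso
    obtain ⟨p, hp1, hp2⟩ := Nat.exists_infinite_primes (q + 1)
    have := hmax p hp2 (dvd_zero p)
    omega
  have hd1 : (1 : ℝ) ≤ d := by exact_mod_cast hd
  have hq1 : (1 : ℝ) ≤ q := by exact_mod_cast hq.one_le
  refine ⟨h1.trans ?_, h2.trans ?_⟩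
  · exact mul_le_mul_of_nonneg_left (Real.rpow_le_rpow_of_exponent_le hd1 (by linarith))
      (Nat.cast_nonneg K)
  · exact mul_le_mul_of_nonneg_right (Real.rpow_le_rpow_of_exponent_le hq1 (by linarith))
      (Real.exp_pos _).le

theorem log5040 : Real.log 5040 ≤ 9 := by
  rw [Real.log_le_iff_le_exp (by norm_num)]
  have h2 : Real.exp 9 = Real.exp 1 ^ 9 := by
    rw [← Real.exp_nat_mul]
    norm_num
  rw [h2]
  have h3 : (2.7182818283 : ℝ) < Real.exp 1 := Real.exp_one_gt_d9
  calc (5040 : ℝ) ≤ 2.7182818283 ^ 9 := by norm_num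
    _ ≤ Real.exp 1 ^ 9 := by gcongr

theorem sixty : (60 : ℝ) ≤ Real.exp 5 := by
  have h2 : Real.exp 5 = Real.exp 1 ^ 5 := by
    rw [← Real.exp_nat_mul]
    norm_num
  rw [h2]
  have h3 : (2.7182818283 : ℝ) < Real.exp 1 := Real.exp_one_gt_d9
  calc (60 : ℝ) ≤ 2.7182818283 ^ 5 := by norm_num
    _ ≤ Real.exp 1 ^ 5 := by gcongr

theorem log11 : 2 ≤ Real.log 11 := by
  rw [Real.le_log_iff_exp_le (by norm_num)]
  have h2 : Real.exp 2 = Real.exp 1 ^ 2 := by
    rw [← Real.exp_nat_mul]
    norm_num
  rw [h2]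
  have h3 := Real.exp_one_lt_d9
  have h4 : (0 : ℝ) ≤ Real.exp 1 := (Real.exp_pos 1).le
  calc Real.exp 1 ^ 2 ≤ 2.7182818286 ^ 2 := pow_le_pow_left₀ h4 h3.le 2
    _ ≤ 11 := by norm_num

/-- the multiplicities of the reduced moduli -/
theorem uk_card (n D : ℕ) (I : Finset ℕ) (hI : I ⊆ n.primeFactors) :
    ((I.filter (fun p => rank p / Nat.gcd (rank p) 5040 = D)).card : ℝ) ≤
      ∑ g ∈ Nat.divisors 5040, ((n.primeFactors.filter (fun p => rank p = g * D)).card : ℝ) := by
  classical
  have hsub : I.filter (fun p => rank p / Nat.gcd (rank p) 5040 = D) ⊆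
      (Nat.divisors 5040).biUnion (fun g => n.primeFactors.filter (fun p => rank p = g * D)) := by
    intro p hp
    rw [Finset.mem_filter] at hp
    rw [Finset.mem_biUnion]
    refine ⟨Nat.gcd (rank p) 5040, ?_, ?_⟩
    · rw [Nat.mem_divisors]
      exact ⟨Nat.gcd_dvd_right _ _, by norm_num⟩
    · rw [Finset.mem_filter]
      refine ⟨hI hp.1, ?_⟩
      rw [← hp.2]
      exact (Nat.mul_div_cancel' (Nat.gcd_dvd_left _ _)).symm
  have := (Finset.card_le_card hsub).trans Finset.card_biUnion_le
  exact_mod_cast this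

theorem card_div5040 : (Nat.divisors 5040).card = 60 := by decide +kernel

/-- a number greater than one has a greatest prime factor -/
theorem exists_max_prime (d : ℕ) (hd : 1 < d) : ∃ q : ℕ, q.Prime ∧ q ∣ d ∧
    ∀ p : ℕ, p.Prime → p ∣ d → p ≤ q := by
  have hne : d.primeFactors.Nonempty := Nat.nonempty_primeFactors.mpr hd
  refine ⟨d.primeFactors.max' hne, ?_, ?_, ?_⟩
  · exact Nat.prime_of_mem_primeFactors (Finset.max'_mem _ hne)
  · exact Nat.dvd_of_mem_primeFactors (Finset.max'_mem _ hne)
  · intro p hp hpd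
    exact Finset.le_max' _ _ (Nat.mem_primeFactors.mpr ⟨hp, hpd, by omega⟩)

/-- no prime has rank at most one -/
theorem rank_gt_one (p : ℕ) (hp : p.Prime) : 1 < rank p := by
  obtain ⟨h1, h2⟩ := rank_spec p hp
  rcases Nat.lt_or_ge 1 (rank p) with h | h
  · exact h
  · exfalso
    have h3 : rank p = 1 := by omega
    rw [h3] at h2
    exact hp.one_lt.ne' (Nat.dvd_one.mp (by simpa using h2))

/-- the multiplicity condition for the reduced moduli -/
theorem uk_mult (K n : ℕ) (ε : ℝ) (hε1 : ε < 1) (hε : 0 < ε) (I : Finset ℕ)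
    (hI : I ⊆ n.primeFactors) (hn : Cond K ε n) :
    MultK ε (302400 * K + 5) I (fun p => rank p / Nat.gcd (rank p) 5040) := by
  classical
  have hK0 : (0 : ℝ) ≤ K := Nat.cast_nonneg K
  refine ⟨fun D => ?_, fun D l hl hl11 hlD hmax => ?_⟩
  · rcases Nat.eq_zero_or_pos D with rfl | hD
    · have h0 : I.filter (fun p => rank p / Nat.gcd (rank p) 5040 = 0) = ∅ := by
        rw [Finset.filter_eq_empty_iff]
        intro p hp h
        have hpp := Nat.prime_of_mem_primeFactors (hI hp)
        have h1 := (rank_spec p hpp).1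
        have h2 : Nat.gcd (rank p) 5040 ≤ rank p := Nat.gcd_le_left _ h1
        have h3 := Nat.div_pos h2 (Nat.gcd_pos_of_pos_left _ h1)
        omega
      rw [h0, Finset.card_empty, Nat.cast_zero]
      positivity
    have hD0 : (0 : ℝ) < D := by exact_mod_cast hD
    have h2 : ∀ g ∈ Nat.divisors 5040,
        ((n.primeFactors.filter (fun p => rank p = g * D)).card : ℝ) ≤
        K * (5040 * (D : ℝ) ^ (1 - ε)) := by
      intro g hg
      rw [Nat.mem_divisors] at hg
      have hg0 : 0 < g := Nat.pos_of_dvd_of_pos hg.1 (by norm_num)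
      have hg1 : g ≤ 5040 := Nat.le_of_dvd (by norm_num) hg.1
      rcases Nat.lt_or_ge 1 (g * D) with h1 | h1
      · obtain ⟨q, hq, hqd, hmax⟩ := exists_max_prime (g * D) h1
        refine (hn (g * D) q hq hqd hmax).1.trans ?_
        apply mul_le_mul_of_nonneg_left _ hK0
        rw [Nat.cast_mul, Real.mul_rpow (Nat.cast_nonneg g) hD0.le]
        apply mul_le_mul_of_nonneg_right _ (Real.rpow_nonneg hD0.le _)
        have hg1' : (1 : ℝ) ≤ g := by exact_mod_cast hg0
        calc (g : ℝ) ^ (1 - ε) ≤ (g : ℝ) ^ (1 : ℝ) :=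
              Real.rpow_le_rpow_of_exponent_le hg1' (by linarith)
          _ = g := Real.rpow_one _
          _ ≤ 5040 := by exact_mod_cast hg1
      · have h3 : n.primeFactors.filter (fun p => rank p = g * D) = ∅ := by
          rw [Finset.filter_eq_empty_iff]
          intro p hp h
          have := rank_gt_one p (Nat.prime_of_mem_primeFactors hp)
          omega
        rw [h3, Finset.card_empty, Nat.cast_zero]
        positivity
    refine (uk_card n D I hI).trans ((Finset.sum_le_sum h2).trans ?_)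
    rw [Finset.sum_const, nsmul_eq_mul, card_div5040]
    have h4 : (0 : ℝ) ≤ (D : ℝ) ^ (1 - ε) := Real.rpow_nonneg hD0.le _
    push_cast
    nlinarith
  · have hD : 0 < D := by
      rcases Nat.eq_zero_or_pos D with rfl | hD
      · exfalso
        obtain ⟨p, hp1, hp2⟩ := Nat.exists_infinite_primes (l + 1)
        have := hmax p hp2 (dvd_zero p)
        omega
      · exact hD
    have hD0 : (0 : ℝ) < D := by exact_mod_cast hD
    have hlD' : l ≤ D := Nat.le_of_dvd hD hlD
    have hl0 : (0 : ℝ) < l := by exact_mod_cast hl.pos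
    have hlogl : 2 ≤ Real.log l :=
      log11.trans (Real.log_le_log (by norm_num) (by exact_mod_cast hl11))
    have hlogD : Real.log l ≤ Real.log D := Real.log_le_log hl0 (by exact_mod_cast hlD')
    have hu : 1 ≤ Real.log D / Real.log l := by
      rw [le_div_iff₀ (by linarith)]
      linarith
    have h2 : ∀ g ∈ Nat.divisors 5040,
        ((n.primeFactors.filter (fun p => rank p = g * D)).card : ℝ) ≤
        (l : ℝ) ^ (1 - ε) * Real.exp (6 * K * (Real.log D / Real.log l)) := by
      intro g hg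
      rw [Nat.mem_divisors] at hg
      have hg0 : 0 < g := Nat.pos_of_dvd_of_pos hg.1 (by norm_num)
      have hg1 : g ≤ 5040 := Nat.le_of_dvd (by norm_num) hg.1
      have hmax' : ∀ p : ℕ, p.Prime → p ∣ g * D → p ≤ l := by
        intro p hp hpd
        rcases (Nat.Prime.dvd_mul hp).mp hpd with h | h
        · have h5 : p ∣ 5040 := h.trans hg.1
          have h7 : (5040 : ℕ) = 2 ^ 4 * 3 ^ 2 * 5 * 7 := by norm_num
          rw [h7] at h5
          have h6 : p ≤ 7 := by
            rcases hp.dvd_mul.mp h5 with h8 | h8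
            · rcases hp.dvd_mul.mp h8 with h9 | h9
              · rcases hp.dvd_mul.mp h9 with h10 | h10
                · have := Nat.le_of_dvd (by norm_num) (hp.dvd_of_dvd_pow h10)
                  omega
                · have := Nat.le_of_dvd (by norm_num) (hp.dvd_of_dvd_pow h10)
                  omega
              · have := Nat.le_of_dvd (by norm_num) h9
                omega
            · exact Nat.le_of_dvd (by norm_num) h8
          omega
        · exact hmax p hp h
      refine (hn (g * D) l hl (Dvd.dvd.mul_left hlD g) hmax').2.trans ?_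
      apply mul_le_mul_of_nonneg_left _ (Real.rpow_nonneg hl0.le _)
      apply Real.exp_le_exp.mpr
      have h4 : Real.log ((g * D : ℕ) : ℝ) ≤ 9 + Real.log D := by
        have h5 : ((g * D : ℕ) : ℝ) ≤ 5040 * D := by
          have : g * D ≤ 5040 * D := Nat.mul_le_mul_right D hg1
          exact_mod_cast this
        have h6 : (0 : ℝ) < ((g * D : ℕ) : ℝ) := by exact_mod_cast Nat.mul_pos hg0 hD
        calc Real.log ((g * D : ℕ) : ℝ) ≤ Real.log (5040 * D) := Real.log_le_log h6 h5
          _ = Real.log 5040 + Real.log D := Real.log_mul (by norm_num) hD0.ne'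
          _ ≤ 9 + Real.log D := by linarith [log5040]
      have h5 : Real.log ((g * D : ℕ) : ℝ) / Real.log l ≤ 6 * (Real.log D / Real.log l) := by
        rw [← mul_div_assoc, div_le_div_iff_of_pos_right (by linarith)]
        linarith
      calc (K : ℝ) * (Real.log ((g * D : ℕ) : ℝ) / Real.log l) ≤
          K * (6 * (Real.log D / Real.log l)) := mul_le_mul_of_nonneg_left h5 hK0
        _ = 6 * K * (Real.log D / Real.log l) := by ring
    refine (uk_card n D I hI).trans ((Finset.sum_le_sum h2).trans ?_)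
    rw [Finset.sum_const, nsmul_eq_mul, card_div5040]
    have h3 : (0 : ℝ) ≤ (l : ℝ) ^ (1 - ε) := Real.rpow_nonneg hl0.le _
    have h4 : 60 * Real.exp (6 * K * (Real.log D / Real.log l)) ≤
        Real.exp ((302400 * K + 5) * (Real.log D / Real.log l)) := by
      calc 60 * Real.exp (6 * K * (Real.log D / Real.log l)) ≤
          Real.exp 5 * Real.exp (6 * K * (Real.log D / Real.log l)) :=
            mul_le_mul_of_nonneg_right sixty (Real.exp_pos _).le
        _ = Real.exp (5 + 6 * K * (Real.log D / Real.log l)) := (Real.exp_add _ _).symm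
        _ ≤ _ := by
            apply Real.exp_le_exp.mpr
            have h5 : 0 ≤ K * (Real.log D / Real.log l) := mul_nonneg hK0 (by linarith)
            nlinarith
    calc ((60 : ℕ) : ℝ) * ((l : ℝ) ^ (1 - ε) * Real.exp (6 * K * (Real.log D / Real.log l))) =
        (l : ℝ) ^ (1 - ε) * (60 * Real.exp (6 * K * (Real.log D / Real.log l))) := by
          push_cast
          ring
      _ ≤ _ := mul_le_mul_of_nonneg_left h4 h3

theorem thm_UK' (h0 : St_CovK) (K : ℕ) (ε : ℝ) (hε : 0 < ε) (hε1 : ε < 1) :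
    ∃ a : ℕ → ℕ, (∀ n, a (n + 2) = a (n + 1) + a n) ∧
    (∀ k, 1 < a k ∧ ¬ (a k).Prime) ∧
    ∀ n : ℕ, 1 < n → Cond K ε n → ∃ k, Nat.gcd n (a k) = 1 := by
  classical
  obtain ⟨Z₀, hZ₀, hcov⟩ := h0 ε (302400 * K + 5) hε hε1 (by positivity)
  set Z : ℕ := 5040 * Z₀ with hZ
  obtain ⟨s, t, hMs, hst, hcop, hs1, htM, hstr⟩ := family Z
  have hM0 : 1 < M := by unfold M; norm_num
  refine ⟨A s t, A_rec s t, fun k => ?_, fun n hn hmult => ?_⟩
  · rcases Nat.even_or_odd' k with ⟨j, rfl | rfl⟩
    · exact even_composite s t (by omega) hst j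
    · exact odd_composite s t hMs hst hs1 htM _ (by omega)
  set I : Finset ℕ := n.primeFactors.filter (fun p => ¬ p ∣ M ∧ ¬ rank p ∣ Z.factorial) with hI
  set d : ℕ → ℕ := fun p => rank p / Nat.gcd (rank p) 5040 with hd
  set c : ℕ → ℕ := fun p => if h : ∃ j, p ∣ A s t (5040 * j) then h.choose % d p else d p with hc
  set R : Finset ℕ := (range (Z + 1)).filter (fun l => l.Prime ∧ 11 ≤ l) with hR
  set ρ : ℕ → ℕ := fun l => ((2 : ZMod l) * (5040 : ZMod l)⁻¹).val with hρ
  have hIn : ∀ p ∈ I, p.Prime ∧ p ∣ n ∧ ¬ p ∣ M ∧ ¬ rank p ∣ Z.factorial := by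
    intro p hp
    rw [hI, Finset.mem_filter, Nat.mem_primeFactors] at hp
    exact ⟨hp.1.1, hp.1.2.1, hp.2.1, hp.2.2⟩
  obtain ⟨j, hj1, hj2⟩ := hcov R ρ
    (fun l hl => (Finset.mem_filter.mp hl).2.1) I d c
    (by
      intro p hp
      obtain ⟨hpp, -, -, hpr⟩ := hIn p hp
      have h1 := (rank_spec p hpp).1
      have h2 : Z < rank p := by
        by_contra hcon
        exact hpr (Nat.dvd_factorial h1 (by omega))
      have h3 : Nat.gcd (rank p) 5040 ≤ 5040 := Nat.gcd_le_right _ (by norm_num)
      have h4 : Nat.gcd (rank p) 5040 * d p = rank p :=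
        Nat.mul_div_cancel' (Nat.gcd_dvd_left _ _)
      by_contra hcon
      push Not at hcon
      have h5 : Nat.gcd (rank p) 5040 * d p ≤ 5040 * Z₀ := Nat.mul_le_mul h3 hcon.le
      omega)
    (uk_mult K n ε hε1 hε I (Finset.filter_subset _ _) hmult)
  -- use a positive index
  refine ⟨5040 * j, ?_⟩
  rw [← Nat.coprime_iff_gcd_eq_one]
  apply Nat.coprime_of_dvd
  intro p hp hpn hpA
  by_cases hpM : p ∣ M
  · exact good_M s t p _ hp hst hs1 htM hpM (Dvd.intro _ rfl) hpA
  by_cases hpr : rank p ∣ Z.factorial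
  · have hpD : p ∣ Nat.fib Z.factorial := dvd_fib_of_rank p hp _ hpr
    obtain ⟨hsp, htp⟩ := hstr p hp hpM hpD
    refine good_W s t p _ hp hst hsp htp ?_ hpA
    rcases Nat.eq_zero_or_pos j with h0 | hjpos
    · left
      rw [h0]
    · right
      refine ⟨by omega, fun hF => ?_⟩
      have h1 : p ∣ Nat.gcd (Nat.fib Z.factorial) (Nat.fib (5040 * j - 2)) := Nat.dvd_gcd hpD hF
      rw [← Nat.fib_gcd] at h1
      have h2 := u_gcd Z j hjpos (by
        intro l hl hl11 hlZ hdvd
        haveI : Fact l.Prime := ⟨hl⟩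
        apply hj1 l (by
          rw [hR, Finset.mem_filter, Finset.mem_range]
          exact ⟨by omega, hl, hl11⟩)
        have h3 : ((5040 * j - 2 : ℕ) : ZMod l) = 0 := (ZMod.natCast_eq_zero_iff _ _).mpr hdvd
        have h4 : ((5040 * j - 2 : ℕ) : ZMod l) = 5040 * (j : ZMod l) - 2 := by
          rw [Nat.cast_sub (by omega)]
          push_cast
          ring
        rw [h4] at h3
        have h5 : (5040 : ZMod l) ≠ 0 := by
          intro h5
          have h6 : ((5040 : ℕ) : ZMod l) = 0 := by exact_mod_cast h5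
          rw [ZMod.natCast_eq_zero_iff] at h6
          have h7 : (5040 : ℕ) = 2 ^ 4 * 3 ^ 2 * 5 * 7 := by norm_num
          rw [h7] at h6
          rcases hl.dvd_mul.mp h6 with h8 | h8
          · rcases hl.dvd_mul.mp h8 with h9 | h9
            · rcases hl.dvd_mul.mp h9 with h10 | h10
              · have := Nat.le_of_dvd (by norm_num) (hl.dvd_of_dvd_pow h10)
                omega
              · have := Nat.le_of_dvd (by norm_num) (hl.dvd_of_dvd_pow h10)
                omega
            · have := Nat.le_of_dvd (by norm_num) h9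
              omega
          · have := Nat.le_of_dvd (by norm_num) h8
            omega
        have h6 : (j : ZMod l) = 2 * (5040 : ZMod l)⁻¹ := by
          field_simp
          rw [sub_eq_zero] at h3
          rw [← h3]
          ring
        show j % l = ((2 : ZMod l) * (5040 : ZMod l)⁻¹).val
        rw [← h6, ZMod.val_natCast])
      rcases h2 with h2 | h2
      · rw [h2] at h1
        exact hp.one_lt.ne' (Nat.dvd_one.mp h1)
      · rw [h2] at h1
        exact hp.one_lt.ne' (Nat.dvd_one.mp h1)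
  · have hpI : p ∈ I := by
      rw [hI, Finset.mem_filter, Nat.mem_primeFactors]
      exact ⟨⟨hp, hpn, by omega⟩, hpM, hpr⟩
    have hex : ∃ j, p ∣ A s t (5040 * j) := ⟨j, hpA⟩
    have hcp : c p = hex.choose % d p := by
      show (if h : ∃ j, p ∣ A s t (5040 * j) then h.choose % d p else d p) = _
      rw [dif_pos hex]
    have hj0 : p ∣ A s t (5040 * hex.choose) := hex.choose_spec
    apply hj2 p hpI
    rw [hcp]
    have hp5 : p ≠ 5 := by
      rintro rfl
      apply hpM
      unfold M
      norm_num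
    have key : ∀ i m : ℕ, p ∣ A s t (5040 * i) → p ∣ A s t (5040 * (i + m)) → d p ∣ m := by
      intro i m h1 h2
      rcases Nat.eq_zero_or_pos m with rfl | hm
      · exact dvd_zero _
      have h3 := two_terms s t p hp hst hcop hp5 (5040 * i) (5040 * m) (by omega) h1
        (by rw [← Nat.mul_add]; exact h2)
      exact div_gcd_dvd (rank p) 5040 m (rank_spec p hp).1 (rank_dvd p hp _ h3)
    rcases le_total j hex.choose with h | h
    · obtain ⟨m, hm⟩ := Nat.exists_eq_add_of_le h
      have h1 := key j m hpA (by rw [← hm]; exact hj0)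
      rw [hm]
      obtain ⟨q, hq⟩ := h1
      rw [hq, Nat.add_mul_mod_self_left]
    · obtain ⟨m, hm⟩ := Nat.exists_eq_add_of_le h
      have h1 := key hex.choose m hj0 (by rw [← hm]; exact hpA)
      obtain ⟨q, hq⟩ := h1
      conv_lhs => rw [hm, hq]
      rw [Nat.add_mul_mod_self_left]

theorem thm_UK (h0 : St_CovK) : St_UK := by
  intro K ε hε
  obtain ⟨a, h1, h2, h3⟩ := thm_UK' h0 K (min ε (1 / 2)) (lt_min hε (by norm_num))
    ((min_le_right _ _).trans_lt (by norm_num))
  exact ⟨a, h1, h2, fun n hn hc => h3 n hn (Cond_mono K ε _ (min_le_left _ _) n hc)⟩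

end Pool.Agent.CVE
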