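import Mathlib
import Pool.Agent.CVE.Stmts
import Pool.Agent.CVE.CovE
import Pool.Agent.CVE.UK
import Pool.Agent.CVE.UE
import Pool.Agent.CVD.VT

set_option autoImplicit false

/-!
# CVE / UF: the theorem on rank multiplicities, no condition on ranks `d ≤ (2/5) q √(log q)`, `q` the greatest prime factor
-/

namespace Pool.Agent.CVE

open Finset Pool.Agent.CVD

/-- the condition on `n`, only for the `d` with `d > (2/5) q √(log q)`, `q` the greatest prime factor of `d` -/
def CondF (K : ℕ) (ε : ℝ) (n : ℕ) : Prop :=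
  ∀ d q : ℕ, q.Prime → q ∣ d → (∀ p : ℕ, p.Prime → p ∣ d → p ≤ q) → 2 / 5 * (q : ℝ) * Real.sqrt (Real.log q) < d →
    ((n.primeFactors.filter (fun p => rank p = d)).card : ℝ) ≤ K * (d : ℝ) ^ (1 - ε) ∧
    ((n.primeFactors.filter (fun p => rank p = d)).card : ℝ) ≤
      (q : ℝ) ^ (1 - ε) * Real.exp (K * (Real.log d / Real.log q))

theorem CondF_mono (K : ℕ) (ε ε' : ℝ) (h : ε' ≤ ε) (n : ℕ) (hn : CondF K ε n) : CondF K ε' n := by
  intro d q hq hqd hmax hK
  obtain ⟨h1, h2⟩ := hn d q hq hqd hmax hK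
  rcases Nat.eq_zero_or_pos d with rfl | hd
  · exfalso
    rw [Nat.cast_zero] at hK
    have : 0 ≤ 2 / 5 * (q : ℝ) * Real.sqrt (Real.log q) := by positivity
    linarith
  have hd1 : (1 : ℝ) ≤ d := by exact_mod_cast hd
  have hq1 : (1 : ℝ) ≤ q := by exact_mod_cast hq.one_le
  refine ⟨h1.trans ?_, h2.trans ?_⟩
  · exact mul_le_mul_of_nonneg_left (Real.rpow_le_rpow_of_exponent_le hd1 (by linarith))
      (Nat.cast_nonneg K)
  · exact mul_le_mul_of_nonneg_right (Real.rpow_le_rpow_of_exponent_le hq1 (by linarith))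
      (Real.exp_pos _).le

/-- the exempt primes of one `l` are few -/
theorem exempt_countF (l : ℕ) (hl : l.Prime) (hl11 : 11 ≤ l) (T : Finset ℕ)
    (hT : ∀ p ∈ T, p.Prime ∧ l ∣ rank p ∧ (rank p : ℝ) ≤ 2 / 5 * (l : ℝ) * Real.sqrt (Real.log l)) :
    (T.card : ℝ) ≤ ((l : ℝ) - 1) / 4 := by
  classical
  have hl2 : (11 : ℝ) ≤ l := by exact_mod_cast hl11
  have hl0 : (0 : ℝ) < l := by linarith
  have hlog : 0 < Real.log l := Real.log_pos (by linarith)
  obtain ⟨γ, hγ⟩ : ∃ γ : ℝ, γ = 2 / 5 * Real.sqrt (Real.log l) := ⟨_, rfl⟩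
  have hγ0 : 0 ≤ γ := by rw [hγ]; positivity
  have hγ2 : γ ^ 2 = 4 / 25 * Real.log l := by
    rw [hγ, mul_pow, Real.sq_sqrt hlog.le]
    norm_num
  obtain ⟨G, hG⟩ : ∃ G : ℕ, G = ⌊γ⌋₊ := ⟨_, rfl⟩
  have hGγ : (G : ℝ) ≤ γ := by rw [hG]; exact Nat.floor_le hγ0
  have hsub : T ⊆ (Finset.Icc 1 G).biUnion (fun g => T.filter (fun p => rank p = g * l)) := by
    intro p hp
    obtain ⟨hpp, ⟨g, hg⟩, hle⟩ := hT p hp
    rw [mem_biUnion]
    refine ⟨g, ?_, mem_filter.mpr ⟨hp, by rw [hg, mul_comm]⟩⟩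
    rw [Finset.mem_Icc]
    have h1 := (rank_spec p hpp).1
    constructor
    · rcases Nat.eq_zero_or_pos g with h | h
      · rw [h, mul_zero] at hg
        omega
      · exact h
    · rw [hG]
      apply Nat.le_floor
      rw [hg, Nat.cast_mul] at hle
      have h2 : (l : ℝ) * g ≤ (l : ℝ) * γ := by
        rw [hγ]
        linarith
      exact le_of_mul_le_mul_left h2 hl0
  have h1 : (T.card : ℝ) ≤ ∑ g ∈ Finset.Icc 1 G, ((T.filter (fun p => rank p = g * l)).card : ℝ) := by
    exact_mod_cast (Finset.card_le_card hsub).trans Finset.card_biUnion_le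
  have h2 : ∀ g ∈ Finset.Icc 1 G, ((T.filter (fun p => rank p = g * l)).card : ℝ) ≤
      1.4 * (γ * l) / Real.log l := by
    intro g hg
    rw [Finset.mem_Icc] at hg
    have h3 : 2 ≤ g * l := by
      have := Nat.mul_le_mul hg.1 hl.two_le
      omega
    have h4 := rank_count (g * l) h3 (T.filter (fun p => rank p = g * l)) (fun p hp =>
      ⟨(hT p (mem_filter.mp hp).1).1, (mem_filter.mp hp).2⟩)
    rw [le_div_iff₀ hlog]
    have h5 : Real.log l ≤ Real.log ((g * l : ℕ) : ℝ) := by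
      apply Real.log_le_log hl0
      have : l ≤ g * l := Nat.le_mul_of_pos_left l hg.1
      exact_mod_cast this
    have h6 : ((g * l : ℕ) : ℝ) ≤ γ * l := by
      rw [Nat.cast_mul]
      apply mul_le_mul_of_nonneg_right _ hl0.le
      have : (g : ℝ) ≤ G := by exact_mod_cast hg.2
      exact this.trans hGγ
    calc ((T.filter (fun p => rank p = g * l)).card : ℝ) * Real.log l ≤
        ((T.filter (fun p => rank p = g * l)).card : ℝ) * Real.log ((g * l : ℕ) : ℝ) :=
          mul_le_mul_of_nonneg_left h5 (Nat.cast_nonneg _)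
      _ ≤ 1.4 * ((g * l : ℕ) : ℝ) := h4
      _ ≤ 1.4 * (γ * l) := by linarith
  refine (h1.trans (Finset.sum_le_sum h2)).trans ?_
  rw [Finset.sum_const, Nat.card_Icc, nsmul_eq_mul, Nat.add_sub_cancel, ← mul_div_assoc,
    div_le_iff₀ hlog]
  have h7 : (G : ℝ) * (1.4 * (γ * l)) ≤ 1.4 * l * γ ^ 2 := by
    have h8 := mul_le_mul_of_nonneg_right hGγ (mul_nonneg hγ0 hl0.le)
    nlinarith
  rw [hγ2] at h7
  refine h7.trans ?_
  nlinarith

/-- the multiplicity condition for the not exempt primes -/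
theorem uf_mult (K n : ℕ) (ε : ℝ) (hε1 : ε < 1) (hε : 0 < ε) (I : Finset ℕ)
    (hI : I ⊆ n.primeFactors) (hIK : ∀ p ∈ I, ∀ q : ℕ, IsGpf q (rank p) →
      2 / 5 * (q : ℝ) * Real.sqrt (Real.log q) < rank p)
    (hn : CondF K ε n) :
    MultK ε (302400 * K + 5) I (fun p => rank p / Nat.gcd (rank p) 5040) := by
  classical
  have hprime : ∀ p ∈ I, p.Prime := fun p hp => Nat.prime_of_mem_primeFactors (hI hp)
  have hpf : (∏ p ∈ I, p).primeFactors = I := Nat.primeFactors_prod hprime
  have hc : Cond K ε (∏ p ∈ I, p) := by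
    intro d q hq hqd hmax
    rw [hpf]
    rcases lt_or_ge (2 / 5 * (q : ℝ) * Real.sqrt (Real.log q)) d with h | h
    · obtain ⟨h1, h2⟩ := hn d q hq hqd hmax h
      have h3 : ((I.filter (fun p => rank p = d)).card : ℝ) ≤
          ((n.primeFactors.filter (fun p => rank p = d)).card : ℝ) := by
        exact_mod_cast Finset.card_le_card (Finset.filter_subset_filter _ hI)
      exact ⟨h3.trans h1, h3.trans h2⟩
    · have h3 : I.filter (fun p => rank p = d) = ∅ := by
        rw [Finset.filter_eq_empty_iff]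
        intro p hp hpd
        have h4 := hIK p hp q ⟨hq, by rw [hpd]; exact hqd, by rw [hpd]; exact hmax⟩
        rw [hpd] at h4
        linarith
      rw [h3, Finset.card_empty, Nat.cast_zero]
      constructor
      · positivity
      · positivity
  exact uk_mult K _ ε hε1 hε I (by rw [hpf]) hc

theorem thm_UF' (h0 : St_CovE) (K : ℕ) (ε : ℝ) (hε : 0 < ε) (hε1 : ε < 1) :
    ∃ a : ℕ → ℕ, (∀ n, a (n + 2) = a (n + 1) + a n) ∧
    (∀ k, 1 < a k ∧ ¬ (a k).Prime) ∧
    ∀ n : ℕ, 1 < n → CondF K ε n → ∃ k, Nat.gcd n (a k) = 1 := by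
  classical
  obtain ⟨y₀, hy₀⟩ := h0 ε (302400 * K + 5) hε hε1 (by positivity)
  set y : ℕ := max y₀ 11 with hy
  have hy0 : y₀ ≤ y := le_max_left _ _
  have hy11 : 11 ≤ y := le_max_right _ _
  obtain ⟨Z₀, hZ₀, hcov⟩ := hy₀ y hy0
  set Z : ℕ := max (5040 * Z₀) (y * y) with hZ
  have hZ1 : 5040 * Z₀ ≤ Z := le_max_left _ _
  have hZ2 : y * y ≤ Z := le_max_right _ _
  obtain ⟨s, t, hMs, hst, hcop, hs1, htM, hstr⟩ := family Z
  have hM0 : 1 < M := by unfold M; norm_num
  refine ⟨A s t, A_rec s t, fun k => ?_, fun n hn hmult => ?_⟩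
  · rcases Nat.even_or_odd' k with ⟨j, rfl | rfl⟩
    · exact even_composite s t (by omega) hst j
    · exact odd_composite s t hMs hst hs1 htM _ (by omega)
  set I : Finset ℕ := n.primeFactors.filter (fun p => ¬ p ∣ M ∧ ¬ rank p ∣ Z.factorial) with hI
  set d : ℕ → ℕ := fun p => rank p / Nat.gcd (rank p) 5040 with hd
  set c : ℕ → ℕ := fun p => if h : ∃ j, p ∣ A s t (5040 * j) then h.choose % d p else d p with hc
  set R : Finset ℕ := (range (Z + 1)).filter (fun l => l.Prime ∧ 11 ≤ l) with hR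
  set ρ : ℕ → ℕ := fun l => ((2 : ZMod l) * (5040 : ZMod l)⁻¹).val with hρ
  have hIn : ∀ p ∈ I, p.Prime ∧ p ∣ n ∧ ¬ p ∣ M ∧ ¬ rank p ∣ Z.factorial := by
    intro p hp
    rw [hI, Finset.mem_filter, Nat.mem_primeFactors] at hp
    exact ⟨hp.1.1, hp.1.2.1, hp.2.1, hp.2.2⟩
  set E : Finset ℕ := I.filter (fun p => ∃ q : ℕ, IsGpf q (rank p) ∧
    (rank p : ℝ) ≤ 2 / 5 * (q : ℝ) * Real.sqrt (Real.log q)) with hE
  have hIZ : ∀ p ∈ I, Z < rank p := by
    intro p hp
    obtain ⟨hpp, -, -, hpr⟩ := hIn p hp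
    by_contra hcon
    exact hpr (Nat.dvd_factorial (rank_spec p hpp).1 (by omega))
  have hEq : ∀ p ∈ E, ∃ q : ℕ, y ≤ q ∧ IsGpf q (rank p) ∧
      (rank p : ℝ) ≤ 2 / 5 * (q : ℝ) * Real.sqrt (Real.log q) ∧ IsGpf q (d p) := by
    intro p hp
    rw [hE, Finset.mem_filter] at hp
    obtain ⟨hpI, q, hq, hle⟩ := hp
    have h1 := hIZ p hpI
    have hq1 : (1 : ℝ) ≤ q := by exact_mod_cast hq.1.one_le
    have h2 : Real.sqrt (Real.log q) ≤ q := by
      rw [Real.sqrt_le_left (by linarith)]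
      have := Real.log_le_sub_one_of_pos (show (0 : ℝ) < q by linarith)
      nlinarith
    have h3 : (rank p : ℝ) ≤ (q : ℝ) * q := by
      refine hle.trans ?_
      have h4 := mul_le_mul_of_nonneg_left h2 (show (0 : ℝ) ≤ q by linarith)
      have h5 : 0 ≤ (q : ℝ) * q := by positivity
      nlinarith
    have h6 : rank p ≤ q * q := by exact_mod_cast h3
    have h7 : y < q := by
      by_contra hcon
      have h8 : q * q ≤ y * y := Nat.mul_le_mul (by omega) (by omega)
      omega
    exact ⟨q, h7.le, hq, hle, gpf_reduced _ q (by omega) hq (by omega)⟩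
  obtain ⟨j, hj1, hj2⟩ := hcov R ρ
    (fun l hl => (Finset.mem_filter.mp hl).2.1) I E d c
    (by
      intro p hp
      obtain ⟨hpp, -, -, hpr⟩ := hIn p hp
      have h1 := (rank_spec p hpp).1
      have h2 : Z < rank p := hIZ p hp
      have h3 : Nat.gcd (rank p) 5040 ≤ 5040 := Nat.gcd_le_right _ (by norm_num)
      have h4 : Nat.gcd (rank p) 5040 * d p = rank p :=
        Nat.mul_div_cancel' (Nat.gcd_dvd_left _ _)
      by_contra hcon
      push Not at hcon
      have h5 : Nat.gcd (rank p) 5040 * d p ≤ 5040 * Z₀ := Nat.mul_le_mul h3 hcon.le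
      omega)
    (by
      refine uf_mult K n ε hε1 hε _ ?_ ?_ hmult
      · intro p hp
        rw [Finset.mem_filter, hI, Finset.mem_filter] at hp
        exact hp.1.1
      · intro p hp q hq
        rw [Finset.mem_filter] at hp
        by_contra hcon
        apply hp.2
        rw [hE, Finset.mem_filter]
        exact ⟨hp.1, q, hq, not_lt.mp hcon⟩)
    (by
      intro p hp
      obtain ⟨q, h1, -, -, h4⟩ := hEq p hp
      exact ⟨q, h1, h4⟩)
    (by
      intro l hl T hTE hTl
      rcases Finset.eq_empty_or_nonempty T with rfl | ⟨p₀, hp₀⟩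
      · rw [Finset.card_empty, Nat.cast_zero]
        have : (2 : ℝ) ≤ l := by exact_mod_cast hl.two_le
        linarith
      have hyl : y ≤ l := by
        obtain ⟨q, h1, -, -, h4⟩ := hEq p₀ (hTE hp₀)
        rw [gpf_unique _ l q (hTl p₀ hp₀) h4]
        exact h1
      refine exempt_countF l hl (by omega) T fun p hp => ?_
      obtain ⟨q, h1, h2, h3, h4⟩ := hEq p (hTE hp)
      have h5 : l = q := gpf_unique _ l q (hTl p hp) h4
      have h6 : p ∈ I := by
        have := hTE hp
        rw [hE, Finset.mem_filter] at this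
        exact this.1
      rw [h5]
      exact ⟨(hIn p h6).1, h2.2.1, h3⟩)
  -- use a positive index
  refine ⟨5040 * j, ?_⟩
  rw [← Nat.coprime_iff_gcd_eq_one]
  apply Nat.coprime_of_dvd
  intro p hp hpn hpA
  by_cases hpM : p ∣ M
  · exact good_M s t p _ hp hst hs1 htM hpM (Dvd.intro _ rfl) hpA
  by_cases hpr : rank p ∣ Z.factorial
  · have hpD : p ∣ Nat.fib Z.factorial := dvd_fib_of_rank p hp _ hpr
    obtain ⟨hsp, htp⟩ := hstr p hp hpM hpD
    refine good_W s t p _ hp hst hsp htp ?_ hpA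
    rcases Nat.eq_zero_or_pos j with h0 | hjpos
    · left
      rw [h0]
    · right
      refine ⟨by omega, fun hF => ?_⟩
      have h1 : p ∣ Nat.gcd (Nat.fib Z.factorial) (Nat.fib (5040 * j - 2)) := Nat.dvd_gcd hpD hF
      rw [← Nat.fib_gcd] at h1
      have h2 := u_gcd Z j hjpos (by
        intro l hl hl11 hlZ hdvd
        haveI : Fact l.Prime := ⟨hl⟩
        apply hj1 l (by
          rw [hR, Finset.mem_filter, Finset.mem_range]
          exact ⟨by omega, hl, hl11⟩)
        have h3 : ((5040 * j - 2 : ℕ) : ZMod l) = 0 := (ZMod.natCast_eq_zero_iff _ _).mpr hdvd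
        have h4 : ((5040 * j - 2 : ℕ) : ZMod l) = 5040 * (j : ZMod l) - 2 := by
          rw [Nat.cast_sub (by omega)]
          push_cast
          ring
        rw [h4] at h3
        have h5 : (5040 : ZMod l) ≠ 0 := by
          intro h5
          have h6 : ((5040 : ℕ) : ZMod l) = 0 := by exact_mod_cast h5
          rw [ZMod.natCast_eq_zero_iff] at h6
          have h7 : (5040 : ℕ) = 2 ^ 4 * 3 ^ 2 * 5 * 7 := by norm_num
          rw [h7] at h6
          rcases hl.dvd_mul.mp h6 with h8 | h8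
          · rcases hl.dvd_mul.mp h8 with h9 | h9
            · rcases hl.dvd_mul.mp h9 with h10 | h10
              · have := Nat.le_of_dvd (by norm_num) (hl.dvd_of_dvd_pow h10)
                omega
              · have := Nat.le_of_dvd (by norm_num) (hl.dvd_of_dvd_pow h10)
                omega
            · have := Nat.le_of_dvd (by norm_num) h9
              omega
          · have := Nat.le_of_dvd (by norm_num) h8
            omega
        have h6 : (j : ZMod l) = 2 * (5040 : ZMod l)⁻¹ := by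
          field_simp
          rw [sub_eq_zero] at h3
          rw [← h3]
          ring
        show j % l = ((2 : ZMod l) * (5040 : ZMod l)⁻¹).val
        rw [← h6, ZMod.val_natCast])
      rcases h2 with h2 | h2
      · rw [h2] at h1
        exact hp.one_lt.ne' (Nat.dvd_one.mp h1)
      · rw [h2] at h1
        exact hp.one_lt.ne' (Nat.dvd_one.mp h1)
  · have hpI : p ∈ I := by
      rw [hI, Finset.mem_filter, Nat.mem_primeFactors]
      exact ⟨⟨hp, hpn, by omega⟩, hpM, hpr⟩
    have hex : ∃ j, p ∣ A s t (5040 * j) := ⟨j, hpA⟩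
    have hcp : c p = hex.choose % d p := by
      show (if h : ∃ j, p ∣ A s t (5040 * j) then h.choose % d p else d p) = _
      rw [dif_pos hex]
    have hj0 : p ∣ A s t (5040 * hex.choose) := hex.choose_spec
    apply hj2 p hpI
    rw [hcp]
    have hp5 : p ≠ 5 := by
      rintro rfl
      apply hpM
      unfold M
      norm_num
    have key : ∀ i m : ℕ, p ∣ A s t (5040 * i) → p ∣ A s t (5040 * (i + m)) → d p ∣ m := by
      intro i m h1 h2
      rcases Nat.eq_zero_or_pos m with rfl | hm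
      · exact dvd_zero _
      have h3 := two_terms s t p hp hst hcop hp5 (5040 * i) (5040 * m) (by omega) h1
        (by rw [← Nat.mul_add]; exact h2)
      exact div_gcd_dvd (rank p) 5040 m (rank_spec p hp).1 (rank_dvd p hp _ h3)
    rcases le_total j hex.choose with h | h
    · obtain ⟨m, hm⟩ := Nat.exists_eq_add_of_le h
      have h1 := key j m hpA (by rw [← hm]; exact hj0)
      rw [hm]
      obtain ⟨q, hq⟩ := h1
      rw [hq, Nat.add_mul_mod_self_left]
    · obtain ⟨m, hm⟩ := Nat.exists_eq_add_of_le h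
      have h1 := key hex.choose m hj0 (by rw [← hm]; exact hpA)
      obtain ⟨q, hq⟩ := h1
      conv_lhs => rw [hm, hq]
      rw [Nat.add_mul_mod_self_left]

/-- the final statement -/
theorem thm_UF (h0 : St_CovE) (K : ℕ) (ε : ℝ) (hε : 0 < ε) :
    ∃ a : ℕ → ℕ, (∀ n, a (n + 2) = a (n + 1) + a n) ∧
    (∀ k, 1 < a k ∧ ¬ (a k).Prime) ∧
    ∀ n : ℕ, 1 < n → CondF K ε n → ∃ k, Nat.gcd n (a k) = 1 := by
  obtain ⟨a, h1, h2, h3⟩ := thm_UF' h0 K (min ε (1 / 2)) (lt_min hε (by norm_num))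
    ((min_le_right _ _).trans_lt (by norm_num))
  exact ⟨a, h1, h2, fun n hn hc => h3 n hn (CondF_mono K ε _ (min_le_left _ _) n hc)⟩

end Pool.Agent.CVE
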